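import Pool.Agent.MP_826def_gt.PD.Spec
import Pool.Agent.MP_826def_gt.BD.Glue

/-!
The descent at a prime from its steps.
-/

namespace Pool.Agent.MP_826def_gt.PD

open Set Topology Pool.Agent.MP_826def_gt.MU Pool.Agent.MP_826def_gt.BD

noncomputable section

theorem dual_split {X : Type} [TopologicalSpace X] (ρ : Bun X) {n : ℕ} (L : Fin n → Bun X)
    (H : ρ.Split L) : (dual ρ).Split fun j => dual (L j) := by
  obtain ⟨u, v, H⟩ := H
  refine ⟨fun j => ⟨fun x => (ContinuousLinearMap.compL ℂ ρ.W (L j).W ℂ).flip (v j x),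
      ((ContinuousLinearMap.compL ℂ ρ.W (L j).W ℂ).flip.continuous.comp (v j).continuous)⟩,
    fun j => ⟨fun x => (ContinuousLinearMap.compL ℂ (L j).W ρ.W ℂ).flip (u j x),
      ((ContinuousLinearMap.compL ℂ (L j).W ρ.W ℂ).flip.continuous.comp (u j).continuous)⟩,
    fun x => ⟨fun i => ContinuousLinearMap.ext fun φ => ?_,
      fun i j hij => ContinuousLinearMap.ext fun φ => ?_, ContinuousLinearMap.ext fun φ => ?_⟩⟩
  · show (φ ∘L v i x) ∘L u i x = φ ∘L (L i).p x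
    rw [ContinuousLinearMap.comp_assoc, (H x).1]
  · show (φ ∘L v j x) ∘L u i x = 0
    rw [ContinuousLinearMap.comp_assoc, (H x).2.1 j i hij.symm, ContinuousLinearMap.comp_zero]
  · rw [sum_apply]
    show ∑ i, (φ ∘L u i x) ∘L v i x = φ ∘L ρ.p x
    rw [← (H x).2.2, ContinuousLinearMap.comp_finsetSum]
    rfl

theorem mem_of_coprime {M : Type 1} [AddCommGroup M] (R : AddSubgroup M) {p n : ℕ}
    (hp : ∀ x : M, p • x ∈ R) (hn : n.Coprime p) {y : M} (hy : n • y ∈ R) : y ∈ R := by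
  obtain ⟨a, b, e⟩ := Nat.isCoprime_iff_coprime.2 hn
  have h1 := R.add_mem (R.zsmul_mem hy a) (R.zsmul_mem (hp y) b)
  rwa [← natCast_zsmul, ← natCast_zsmul, smul_smul, smul_smul, ← add_smul, e, one_smul] at h1

variable [C : Fact Core]

theorem deg_pw (A : Api) {X : Type} [TopologicalSpace X] {x : h X} (hx : IsDeg 0 x) (n : ℕ) :
    IsDeg 0 (pw x n) := by
  induction n with
  | zero => exact hx
  | succ n ih =>
    have h13 := A.deg.prod (ContinuousMap.id X) (ContinuousMap.id X) 0 0 _ hx (pw x n)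
    rw [add_zero, ih] at h13
    exact h13

theorem core (A : Api) (h1 : S_P1) (h3 : S_P3) (h4 : S_P4) (h5 : S_P5) (h6 : S_P6)
    {a : ℕ → ℕ → UU} (ha : IsFGL a) {S B X : Type} [TopologicalSpace S] [CompactSpace S]
    [TopologicalSpace B] [CompactSpace B] [T2Space B] [TopologicalSpace X] [T2Space X]
    [LocallyCompactSpace X] {n : ℕ} (hp : (n + 1).Prime) (R : AddSubgroup (h X))
    (hR : ∀ x : h X, (n + 1) • x ∈ R) {c : Raw X} (hc : c.Good) {d : ℤ} (hx : IsDeg d (cls c))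
    {k q : ℕ} (hk : (k : ℤ) = d + c.V.dim) (hq : c.V.dim = k + q)
    (hrk : ∀ z ∈ c.O, rk (c.p z) = k) (D : PC S B (n + 1)) (σ : Bun B) (hσ : σ.Rk 1)
    (F : Fr D σ 1) (b : B) (h8 : ∀ z : h (B × X),
      act ContinuousMap.fst (eu σ ^ (n * k)) z ∈ Hi a (eu σ) X d →
      part d (pull (slice X b) z) ∈ R) :
    (if d = 0 then pw (cls c) n - cls c else cls c) ∈ R := by
  have hn : 1 ≤ n := by have := hp.two_le; omega
  obtain ⟨ρ, hρ, ⟨M⟩⟩ := h4 D (fun j : Fin n => tp σ (j + 1)) fun j => (h3 D σ F (j + 1)).1.some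
  obtain ⟨hz, P, hP, hb⟩ := h5 ρ n M c hc
  have H : ∀ j : Fin n, ∃ θ ∈ AA a (eu σ), eu (dual (tp σ (j + 1))) = eu σ * θ ∧
      eu σ ∣ θ - (n - j : ℕ) := fun j => by
    obtain ⟨-, θ, e1, -, e2, e3⟩ := h1 a ha σ hσ (n - j)
    refine ⟨θ, e1, ?_, e3⟩
    rw [A.eul.iso _ _ ((h3 D σ F (j + 1)).2.2 (by omega)), Nat.add_sub_add_right, e2]
  choose θ θ1 θ2 θ3 using H
  have h7 := h6 a ha ρ (fun j : Fin n => tp σ (j + 1)) (eu σ) c k d hρ
    (fun j => (h3 D σ F (j + 1)).2.1) (fun j => by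
      rw [θ2]
      exact mul_mem (Subring.subset_closure (mem_insert _ _)) (θ1 j)) hc hz hrk hk
  have hW : ∏ j : Fin n, eu (dual (tp σ (j + 1))) = eu σ ^ n * ∏ j, θ j := by
    simp only [θ2]
    rw [Finset.prod_mul_distrib, Finset.prod_const, Finset.card_univ, Fintype.card_fin]
  have h9 := (A.eul.act (ContinuousMap.fst : C(B × X, B)) (ρ.hom (Bun.triv _ c.V))).1 P
  rw [A.eul.split _ _ (A.bun.split_hom _ _ _ (A.bun.split_triv _ c.V)), Finset.prod_const,
    Finset.card_univ, Fintype.card_fin, A.eul.split _ _ (dual_split ρ _ hρ), hW] at h9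
  have h10 : cls (czero ρ c) =
      act ContinuousMap.fst ((eu σ ^ n * ∏ j, θ j) ^ c.V.dim) P := hP.symm.trans h9
  rw [hW, h10, hq] at h7
  have h11 := h8 (act ContinuousMap.fst ((∏ j, θ j) ^ k)
    (act ContinuousMap.fst ((eu σ ^ n * ∏ j, θ j) ^ q) P - pull ContinuousMap.snd (cls c))) (by
      rw [← act_act, pow_mul, ← mul_pow, map_sub, ← act_act, ← pow_add]
      exact h7)
  have hs : IsProperMap (slice X b) :=
    (Function.LeftInverse.isClosedEmbedding (f := Prod.snd) (fun _ => rfl) continuous_snd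
      (slice X b).continuous).isProperMap
  have h12 : pull (slice X b) (pull ContinuousMap.snd (cls c)) = cls c :=
    (pull_comp isProperMap_snd_of_compactSpace hs _).trans (pull_id _)
  have h14 : act (ContinuousMap.fst.comp (slice X b)) (eu σ) = 0 := AddMonoidHom.ext fun y => by
    obtain ⟨s, rfl⟩ := D.surj b
    have e1 := (A.eul.act (ContinuousMap.fst.comp (slice X (D.q s))) σ).1 y
    have e2 := (A.tw.tw_id (σ.pull (ContinuousMap.fst.comp (slice X (D.q s))))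
      (ContinuousMap.const X (F.u s)) fun x => by
        show σ.p (D.q s) (F.u s) = F.u s
        rw [F.pq, ContinuousLinearMap.smulRight_apply, F.lu, one_smul]).2 y
    refine e1.symm.trans (e2.symm.trans (A.tw.empty _ _ _ (fun x e => ?_) y))
    have e4 := F.lu s
    rw [show F.u s = 0 from e, map_zero] at e4
    exact zero_ne_one e4
  have h15 : eu σ ∣ (∏ j, θ j) ^ k - (((∏ j : Fin n, (n - j)) ^ k : ℕ) : h B) := by
    rw [← Ideal.mem_span_singleton, ← Ideal.Quotient.eq, map_pow, map_prod, Nat.cast_pow,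
      Nat.cast_prod, map_pow, map_prod]
    exact congrArg (· ^ k) (Finset.prod_congr rfl fun j _ =>
      Ideal.Quotient.eq.2 (Ideal.mem_span_singleton.2 (θ3 j)))
  have h16 : ∀ y, act (ContinuousMap.fst.comp (slice X b)) ((∏ j, θ j) ^ k) y =
      ((∏ j : Fin n, (n - j)) ^ k : ℕ) • y := fun y => by
    obtain ⟨r, hr⟩ := h15
    rw [sub_eq_iff_eq_add.1 hr, map_add, map_mul, h14, zero_mul, zero_add, map_natCast,
      AddMonoid.End.natCast_apply]
  rw [(A.act.pull _ _ _).1, h16, map_nsmul, map_sub, h12, (A.act.pull _ _ _).1, hb, map_sub,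
    hx] at h11
  have h17 := mem_of_coprime R hR (Nat.Coprime.pow_left k (Nat.Coprime.prod_left fun j _ =>
    (Nat.coprime_of_lt_prime (by have := j.2; omega) (by omega) hp).symm)) h11
  split_ifs with h0
  · have hq0 : q = 0 := by omega
    subst h0
    rwa [hq0, pow_zero, map_one, AddMonoid.End.one_apply, deg_pw A hx n] at h17
  · obtain ⟨q', rfl⟩ : ∃ q', q = q' + 1 := ⟨q - 1, by omega⟩
    obtain ⟨m, rfl⟩ : ∃ m, n = m + 1 := ⟨n - 1, by omega⟩
    rw [pow_succ _ q', pow_succ' (eu σ) m, mul_assoc, act_act, act_act, h14,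
      AddMonoid.End.zero_apply, map_zero, map_zero, zero_sub] at h17
    exact (R.neg_mem_iff).1 h17

theorem quillen_of (A : Api) (h1 : S_P1) (h2 : S_P2) (h3 : S_P3) (h4 : S_P4) (h5 : S_P5)
    (h6 : S_P6) (h7 : S_P7) : S_Qp := by
  intro p hp a ha X _ _ _ R hRa hRp hR2 d hd hRe x hx
  obtain ⟨n, rfl⟩ : ∃ n, p = n + 1 := ⟨p - 1, by have := hp.pos; omega⟩
  have hn : 1 ≤ n := by have := hp.two_le; omega
  rw [Nat.add_sub_cancel]
  obtain ⟨c, hc, rfl, hrk⟩ := A.deg.rep d x hx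
  rcases c.Z.eq_empty_or_nonempty with hZ | ⟨z₀, hz₀⟩
  · obtain ⟨m, rfl⟩ : ∃ m, n = m + 1 := ⟨n - 1, by omega⟩
    rw [cls_empty hc hZ, pw, map_zero, sub_zero]
    split_ifs
    exacts [R.zero_mem, R.zero_mem]
  obtain ⟨k, hk0⟩ : ∃ k, rk (c.p z₀) = k := ⟨_, rfl⟩
  have hk : (k : ℤ) = d + c.V.dim := hk0 ▸ hrk z₀ hz₀.1
  have hrk' : ∀ z ∈ c.O, rk (c.p z) = k := fun z hz => by
    have := (hrk z hz).trans hk.symm
    exact_mod_cast this
  obtain ⟨q, hq⟩ : ∃ q : ℕ, c.V.dim = k + q := ⟨c.V.dim - k, by omega⟩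
  obtain ⟨N, hN⟩ : ∃ N, N = 2 * (n * k) + 1 := ⟨_, rfl⟩
  obtain ⟨-, w, hw1, hw2, hw3, hw4⟩ := h1 a ha (taut N N) (A.bun.rk_taut N N) (n + 1)
  obtain ⟨⟨S, _, _, D, ⟨F⟩⟩, -⟩ := h2 (n + 1) N (2 * (n * k) + 1) (Nat.le_add_left 1 n)
  obtain ⟨b⟩ := (h2 (n + 1) N 1 (Nat.le_add_left 1 n)).2 le_rfl (by omega)
  exact core A h1 h3 h4 h5 h6 ha hp R hR2 hc hx hk hq hrk' D _ (fun z => A.bun.rk_taut _ _ _) F _
    (h7 a ha X R (n + 1) hRa hRp hR2 d hRe N (n * k) _ w hw1 hw2 hw3 hw4 hN.ge b)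

end

end Pool.Agent.MP_826def_gt.PD
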