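import Pool.Agent.MP_826def_gt.PD.Spec
import Pool.Agent.MP_826def_gt.BD.D1

/-!
The lens spaces.
-/

namespace Pool.Agent.MP_826def_gt.PD

open Set Topology Pool.Agent.MP_826def_gt.MU Pool.Agent.MP_826def_gt.BD
open D11 (top)

noncomputable section

namespace P2

variable {X : Type} [TopologicalSpace X] (L : Bun X)

/-- The tensor power of a vector. -/
def up (u : L.W) : ∀ j : ℕ, (tp L j).W
  | 0 => (1 : ℂ)
  | j + 1 => (ContinuousLinearMap.apply ℂ ℂ u).smulRight (up u j)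

/-- The tensor power of a linear form. -/
def lp (l : L.W →L[ℂ] ℂ) : ∀ j : ℕ, (tp L j).W →L[ℂ] ℂ
  | 0 => ContinuousLinearMap.id ℂ ℂ
  | j + 1 => lp l j ∘L ContinuousLinearMap.apply ℂ (tp L j).W l

theorem lp_up (l : L.W →L[ℂ] ℂ) (u : L.W) : ∀ j, lp L l j (up L u j) = l u ^ j
  | 0 => (pow_zero _).symm
  | j + 1 => by
    show lp L l j (l u • up L u j) = _
    rw [map_smul, lp_up l u j, smul_eq_mul, pow_succ']

theorem up_smul (c : ℂ) (u : L.W) : ∀ j, up L (c • u) j = c ^ j • up L u j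
  | 0 => by rw [pow_zero, one_smul]; rfl
  | j + 1 => ContinuousLinearMap.ext fun φ : L.W →L[ℂ] ℂ => by
    show φ (c • u) • up L (c • u) j = c ^ (j + 1) • φ u • up L u j
    rw [up_smul c u j, map_smul, smul_smul, smul_smul, smul_eq_mul]
    congr 1
    ring

theorem up_cont : ∀ j, Continuous fun u => up L u j
  | 0 => continuous_const
  | j + 1 => continuous_clm_apply.2 fun φ : L.W →L[ℂ] ℂ => φ.continuous.smul (up_cont j)

theorem up_norm (u : L.W) : ∀ j, ‖up L u j‖ = ‖u‖ ^ j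
  | 0 => (norm_one (α := ℂ)).trans (pow_zero _).symm
  | j + 1 => by
    have h1 : ‖ContinuousLinearMap.apply ℂ ℂ u‖ = ‖u‖ :=
      (NormedSpace.inclusionInDoubleDualLi ℂ (E := L.W)).norm_map u
    show ‖(ContinuousLinearMap.apply ℂ ℂ u).smulRight (up L u j)‖ = _
    rw [ContinuousLinearMap.norm_smulRight_apply, h1, up_norm u j, pow_succ']

theorem tp_p {x : X} {l : L.W →L[ℂ] ℂ} {u : L.W} (hp : ∀ y, L.p x y = l y • u) :
    ∀ (j : ℕ) (M : (tp L j).W), (tp L j).p x M = lp L l j M • up L u j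
  | 0, M => (mul_one (show ℂ from M)).symm
  | j + 1, M => ContinuousLinearMap.ext fun φ : L.W →L[ℂ] ℂ => by
    have h1 : φ ∘L L.p x = φ u • l := ContinuousLinearMap.ext fun y => by
      show φ (L.p x y) = φ u * l y
      rw [hp, map_smul, smul_eq_mul, mul_comm]
    let M' : (L.W →L[ℂ] ℂ) →L[ℂ] (tp L j).W := M
    show (tp L j).p x (M' (φ ∘L L.p x)) = lp L l j (M' l) • φ u • up L u j
    rw [h1, map_smul, map_smul, tp_p hp j, smul_comm]

theorem taut_p {N : ℕ} (x : CP N N) (u : Fin N → ℂ) (e : x.1 = pj u) (y : Fin N → ℂ) :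
    (taut N N).p x y = lf u y • u := by
  show mv x.1 y = _
  rw [e, mv_pj, lf_apply]

/-- The covering of the lens space by the sphere. -/
def qm (p N m : ℕ) : C(Sm N m, LS (tp (taut N N) p) m) :=
  ⟨fun u => ⟨(⟨pj u.1, u.1, u.2.1, u.2.2, rfl⟩, up (taut N N) u.1 p), by
      rw [tp_p (taut N N) (taut_p _ u.1 rfl), lp_up, lf_self (ne_of_norm u.2.1), one_pow, one_smul],
      (up_norm (taut N N) u.1 p).trans (by
        have h1 : ‖u.1‖ = 1 := u.2.1
        show ‖u.1‖ ^ p = 1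
        rw [h1, one_pow])⟩,
    Continuous.subtype_mk (((pj_cont.comp_continuous continuous_subtype_val
      fun u => ne_of_norm u.2.1).subtype_mk _).prodMk
        ((up_cont (taut N N) p).comp continuous_subtype_val)) _⟩

theorem qm_surj {p : ℕ} (hp : 1 ≤ p) (N m : ℕ) : Function.Surjective (qm p N m) := by
  rintro ⟨⟨⟨_, u, hu, h0, rfl⟩, M⟩, h1, h2⟩
  have hM : M = lp (taut N N) (lf u) p M • up (taut N N) u p :=
    h1.symm.trans (tp_p (taut N N) (taut_p _ u rfl) p M)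
  generalize lp (taut N N) (lf u) p M = c at hM
  have hu' : ‖up (taut N N) u p‖ = 1 := (up_norm (taut N N) u p).trans (by
    show ‖u‖ ^ p = 1
    rw [hu, one_pow])
  have hc1 : ‖c‖ = 1 := by
    have : ‖M‖ = 1 := h2
    rwa [hM, norm_smul, hu', mul_one] at this
  obtain ⟨w, hw⟩ := IsAlgClosed.exists_pow_nat_eq c hp
  have hw1 : ‖w‖ = 1 := by
    rw [← hw, norm_pow] at hc1
    exact (pow_eq_one_iff_of_nonneg (norm_nonneg w) (Nat.one_le_iff_ne_zero.1 hp)).1 hc1
  refine ⟨⟨w • u, by rw [norm_smul, hw1, hu, mul_one], fun i hi => by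
    rw [Pi.smul_apply, h0 i hi, smul_zero]⟩,
    Subtype.ext (Prod.ext (Subtype.ext (pj_smul hw1 u)) ?_)⟩
  show up (taut N N) (w • u) p = M
  rw [hM, ← hw]
  exact up_smul (taut N N) w u p

/-- The data of the covering. -/
def pc {p : ℕ} (hp : 1 ≤ p) (N m : ℕ) : PC (Sm N m) (LS (tp (taut N N) p) m) p where
  q := qm p N m
  surj := qm_surj hp N m
  z s s' := lf s.1 s'.1
  hz s s' e := by
    have h1 : up (taut N N) s.1 p = up (taut N N) s'.1 p :=
      congrArg (fun z : LS (tp (taut N N) p) m => z.1.2) e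
    have h2 := congrArg (lp (taut N N) (lf s.1) p) h1
    rw [lp_up, lp_up] at h2
    refine h2.symm.trans ?_
    show lf s.1 s.1 ^ p = 1
    rw [lf_self (ne_of_norm s.2.1), one_pow]

/-- The frame of the tautological bundle. -/
def fr {p : ℕ} (hp : 1 ≤ p) (N m : ℕ) : Fr (pc hp N m) (LS.σ (tp (taut N N) p) m) 1 where
  u := (cov N m).u
  l := (cov N m).l
  lu := (cov N m).lu
  pq := (cov N m).pq
  fib s s' e := by
    have h1 : pj s.1 = pj s'.1 := congrArg (fun z : LS (tp (taut N N) p) m => z.1.1.1) e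
    have h2 := mv_pj_self (ne_of_norm s'.2.1)
    rw [← h1, mv_pj, ← lf_apply] at h2
    rw [pow_one]
    exact h2.symm

end P2

theorem p2 : S_P2 := by
  intro p N m hp
  refine ⟨⟨Sm N m, inferInstance, inferInstance, P2.pc hp N m, ⟨P2.fr hp N m⟩⟩, fun h1 h2 => ?_⟩
  let i : Fin N := ⟨0, h1.trans h2⟩
  refine ⟨P2.qm p N m ⟨Pi.single i 1, by rw [Pi.norm_single, norm_one], fun j hj => ?_⟩⟩
  refine Pi.single_eq_of_ne (fun e => ?_) _
  rw [e] at hj
  exact absurd (h1.trans hj) (by simp [i])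

end

end Pool.Agent.MP_826def_gt.PD
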