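import Pool.Agent.MP_826def_gt.PD.Spec
import Pool.Agent.MP_826def_gt.BP.Bun1

/-!
Frames of tensor powers and of their duals.
-/

namespace Pool.Agent.MP_826def_gt.PD

open Set Topology Pool.Agent.MP_826def_gt.MU Pool.Agent.MP_826def_gt.BD

noncomputable section

variable {S B : Type} [TopologicalSpace S] [TopologicalSpace B] {p : ℕ} {D : PC S B p}

theorem Fr.p_apply {L : Bun B} {j : ℕ} (F : Fr D L j) (s : S) (y : L.W) :
    L.p (D.q s) y = F.l s y • F.u s := by
  rw [F.pq]
  rfl

theorem Fr.fib_l {L : Bun B} {j : ℕ} (F : Fr D L j) {s s' : S} (e : D.q s = D.q s') :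
    F.l s = D.z s s' ^ j • F.l s' := by
  refine ContinuousLinearMap.ext fun y => ?_
  have h1 := congrArg (F.l s) ((F.p_apply s y).symm.trans (e ▸ F.p_apply s' y))
  rw [F.fib s s' e, map_smul, map_smul, map_smul, F.lu] at h1
  simp only [smul_eq_mul, mul_one] at h1
  rw [h1]
  exact mul_comm _ _

theorem Fr.rk {L : Bun B} {j : ℕ} (F : Fr D L j) : L.Rk 1 := by
  intro b
  obtain ⟨s, rfl⟩ := D.surj b
  refine BP.rk_one_of (L.p (D.q s)) (F.u s) (fun e => ?_) ?_ fun y => ⟨_, F.p_apply s y⟩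
  · have h1 := F.lu s
    rw [e, map_zero] at h1
    exact zero_ne_one h1
  · rw [F.p_apply, F.lu, one_smul]

/-- The frame of the trivial line bundle. -/
def Fr.zero (D : PC S B p) : Fr D (Bun.triv B FD.C) 0 where
  u := ContinuousMap.const S (1 : ℂ)
  l := ContinuousMap.const S (ContinuousLinearMap.id ℂ ℂ)
  lu _ := rfl
  pq _ := ContinuousLinearMap.ext fun y => (mul_one (y : ℂ)).symm
  fib _ _ _ := by
    rw [pow_zero, one_smul]
    rfl

/-- The frame of a tensor product. -/
def Fr.tens {M L : Bun B} {j : ℕ} (G : Fr D M j) (F : Fr D L 1) : Fr D (M.tens L) (j + 1) where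
  u := ⟨fun s => (ContinuousLinearMap.apply ℂ ℂ (F.u s)).smulRight (G.u s),
    continuous_clm_apply.2 fun φ => (φ.continuous.comp F.u.continuous).smul G.u.continuous⟩
  l := ⟨fun s => G.l s ∘L ContinuousLinearMap.apply ℂ M.W (F.l s),
    continuous_clm_apply.2 fun A =>
      G.l.continuous.clm_apply (A.continuous.comp F.l.continuous)⟩
  lu s := by
    show G.l s (F.l s (F.u s) • G.u s) = 1
    rw [F.lu, one_smul, G.lu]
  pq s := by
    refine ContinuousLinearMap.ext fun A => ContinuousLinearMap.ext fun φ => ?_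
    have h1 : ContinuousLinearMap.id ℂ ℂ ∘L φ ∘L L.p (D.q s) = φ (F.u s) • F.l s :=
      ContinuousLinearMap.ext fun y => by
        show φ (L.p (D.q s) y) = φ (F.u s) * F.l s y
        rw [F.p_apply, map_smul, smul_eq_mul, mul_comm]
    show M.p (D.q s) (A (ContinuousLinearMap.id ℂ ℂ ∘L φ ∘L L.p (D.q s))) =
      G.l s (A (F.l s)) • φ (F.u s) • G.u s
    rw [h1, map_smul, map_smul, G.p_apply, smul_comm]
  fib s s' e := by
    refine ContinuousLinearMap.ext fun φ => ?_
    show φ (F.u s') • G.u s' = D.z s s' ^ (j + 1) • φ (F.u s) • G.u s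
    rw [F.fib s s' e, G.fib s s' e, map_smul, smul_smul, smul_smul, smul_eq_mul]
    congr 1
    ring

/-- The frame of a tensor power. -/
def Fr.pow {L : Bun B} (F : Fr D L 1) : ∀ j, Fr D (tp L j) j
  | 0 => Fr.zero D
  | j + 1 => (F.pow j).tens F

theorem Fr.iso_dual [CompactSpace S] [T2Space B] {L M : Bun B} {i k : ℕ} (F : Fr D L i)
    (G : Fr D M k) (hp : i + k = p) : (dual L).Iso M := by
  have hq : IsQuotientMap D.q :=
    D.q.continuous.isClosedMap.isQuotientMap D.q.continuous D.surj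
  let s : B → S := Function.surjInv D.surj
  have hs : ∀ b, D.q (s b) = b := Function.surjInv_eq D.surj
  have hz : ∀ t t', D.q t = D.q t' → D.z t t' ^ i * D.z t t' ^ k = 1 := fun t t' e => by
    rw [← pow_add, hp, D.hz t t' e]
  let U : S → (L.W →L[ℂ] ℂ) →L[ℂ] M.W := fun t =>
    (ContinuousLinearMap.apply ℂ ℂ (F.u t)).smulRight (G.u t)
  let V : S → M.W →L[ℂ] (L.W →L[ℂ] ℂ) := fun t => (G.l t).smulRight (F.l t)
  have hU : Continuous U := continuous_clm_apply.2 fun φ =>
    (φ.continuous.comp F.u.continuous).smul G.u.continuous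
  have hV : Continuous V := continuous_clm_apply.2 fun w =>
    (G.l.continuous.clm_apply continuous_const).smul F.l.continuous
  have eU : (fun b => U (s b)) ∘ D.q = U := funext fun t => by
    have e := (hs (D.q t)).symm
    refine ContinuousLinearMap.ext fun φ => ?_
    show φ (F.u _) • G.u _ = φ (F.u t) • G.u t
    rw [F.fib t _ e, G.fib t _ e, map_smul, smul_smul, smul_eq_mul, mul_right_comm, hz t _ e,
      one_mul]
  have eV : (fun b => V (s b)) ∘ D.q = V := funext fun t => by
    have e := (hs (D.q t)).symm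
    refine ContinuousLinearMap.ext fun w => ?_
    show G.l _ w • F.l _ = G.l t w • F.l t
    rw [F.fib_l e, G.fib_l e, smul_smul, smul_apply, smul_eq_mul, mul_right_comm,
      mul_comm (D.z _ _ ^ k), hz t _ e, one_mul]
  refine ⟨⟨fun b => U (s b), hq.continuous_iff.2 (by rw [eU]; exact hU)⟩,
    ⟨fun b => V (s b), hq.continuous_iff.2 (by rw [eV]; exact hV)⟩, fun b => ?_⟩
  refine ⟨ContinuousLinearMap.ext fun φ => ContinuousLinearMap.ext fun y => ?_,
    ContinuousLinearMap.ext fun w => ?_⟩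
  · show (G.l (s b) (φ (F.u (s b)) • G.u (s b)) • F.l (s b)) y = φ (L.p b y)
    rw [← congrArg (fun c => φ (L.p c y)) (hs b), F.p_apply, map_smul, map_smul, G.lu,
      smul_apply]
    simp only [smul_eq_mul]
    ring
  · show (G.l (s b) w • F.l (s b)) (F.u (s b)) • G.u (s b) = M.p b w
    rw [← congrArg (fun c => M.p c w) (hs b), G.p_apply, smul_apply, F.lu, smul_eq_mul, mul_one]

theorem p3 : S_P3 := by
  intro S B _ _ _ _ p D L F j
  exact ⟨⟨F.pow j⟩, (F.pow j).rk, fun hj =>
    (F.pow j).iso_dual (F.pow (p - j)) (Nat.add_sub_cancel' hj)⟩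

end

end Pool.Agent.MP_826def_gt.PD
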