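import Pool.Agent.MP_826def_gt.PD.Spec

/-! The Fourier transform of the frames. -/

namespace Pool.Agent.MP_826def_gt.PD

open Set Topology Pool.Agent.MP_826def_gt.MU

noncomputable section

namespace X4

theorem orth {n : ℕ} {ω : ℂ} (hω : IsPrimitiveRoot ω (n + 1)) (a b : Fin (n + 1)) :
    ∑ j : Fin (n + 1), (ω ^ (a : ℕ)) ^ (j : ℕ) * ((ω ^ (b : ℕ)) ^ (j : ℕ))⁻¹ =
      if a = b then ((n + 1 : ℕ) : ℂ) else 0 := by
  have h0 : ω ≠ 0 := hω.ne_zero (Nat.succ_ne_zero n)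
  have h1 : ∀ j : Fin (n + 1), (ω ^ (a : ℕ)) ^ (j : ℕ) * ((ω ^ (b : ℕ)) ^ (j : ℕ))⁻¹ =
      (ω ^ (a : ℕ) * (ω ^ (b : ℕ))⁻¹) ^ (j : ℕ) := fun j => by rw [mul_pow, inv_pow]
  simp only [h1]
  rw [Fin.sum_univ_eq_sum_range (fun j => (ω ^ (a : ℕ) * (ω ^ (b : ℕ))⁻¹) ^ j)]
  split_ifs with h
  · rw [h, mul_inv_cancel₀ (pow_ne_zero _ h0)]
    simp
  · have h2 : ω ^ (a : ℕ) * (ω ^ (b : ℕ))⁻¹ ≠ 1 := fun e =>
      h (Fin.ext (hω.pow_inj a.2 b.2 ((mul_inv_eq_one₀ (pow_ne_zero _ h0)).1 e)))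
    have h3 : ∀ c : ℕ, (ω ^ c) ^ (n + 1) = 1 := fun c => by
      rw [← pow_mul, mul_comm, pow_mul, hω.pow_eq_one, one_pow]
    rw [geom_sum_eq h2, mul_pow, inv_pow, h3, h3, inv_one, mul_one, sub_self, zero_div]

theorem inv {n : ℕ} {ω : ℂ} (hω : IsPrimitiveRoot ω (n + 1)) (Y : Fin (n + 1) → ℂ)
    (k : Fin (n + 1)) :
    ∑ i : Fin (n + 1), (((n + 1 : ℕ) : ℂ)⁻¹ * ∑ j : Fin (n + 1), ((ω ^ (i : ℕ)) ^ (j : ℕ))⁻¹ * Y j) *
      (ω ^ (i : ℕ)) ^ (k : ℕ) = Y k := by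
  have h0 : ((n + 1 : ℕ) : ℂ) ≠ 0 := Nat.cast_ne_zero.2 (Nat.succ_ne_zero n)
  have h1 : ∀ i : Fin (n + 1), (((n + 1 : ℕ) : ℂ)⁻¹ *
      ∑ j : Fin (n + 1), ((ω ^ (i : ℕ)) ^ (j : ℕ))⁻¹ * Y j) * (ω ^ (i : ℕ)) ^ (k : ℕ) =
      ∑ j : Fin (n + 1), ((n + 1 : ℕ) : ℂ)⁻¹ * Y j *
        ((ω ^ (k : ℕ)) ^ (i : ℕ) * ((ω ^ (j : ℕ)) ^ (i : ℕ))⁻¹) := fun i => by
    rw [Finset.mul_sum, Finset.sum_mul]
    refine Finset.sum_congr rfl fun j _ => ?_
    rw [pow_right_comm ω k i, pow_right_comm ω j i]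
    ring
  simp only [h1]
  rw [Finset.sum_comm]
  simp only [← Finset.mul_sum, orth hω]
  rw [Finset.sum_eq_single k (fun j _ hj => by rw [if_neg (Ne.symm hj), mul_zero])
    (fun hk => (hk (Finset.mem_univ _)).elim), if_pos rfl]
  field_simp

variable {S B : Type} [TopologicalSpace S] [TopologicalSpace B] {n : ℕ}

/-- The product of the ambient spaces. -/
abbrev PW (L : Fin n → Bun B) : FD := ⟨∀ j, (L j).W⟩

/-- The inclusion of a summand. -/
def inc (L : Fin n → Bun B) (j : Fin n) : C(B, (L j).W →L[ℂ] PW L) :=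
  ⟨fun x => ContinuousLinearMap.single ℂ (fun j => (L j).W) j ∘L (L j).p x,
    continuous_const.clm_comp (L j).p.continuous⟩

/-- The projection to a summand. -/
def prj (L : Fin n → Bun B) (j : Fin n) : PW L →L[ℂ] (L j).W :=
  ContinuousLinearMap.proj (R := ℂ) (φ := fun j => (L j).W) j

/-- The diagonal idempotent. -/
def dg (L : Fin n → Bun B) : C(B, PW L →L[ℂ] PW L) :=
  ⟨fun x => ∑ j, inc L j x ∘L prj L j,
    continuous_finsetSum _ fun j _ => (inc L j).continuous.clm_comp continuous_const⟩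

theorem dg_apply (L : Fin n → Bun B) (x : B) (w : PW L) (k : Fin n) :
    dg L x w k = (L k).p x (w k) := by
  have h1 : dg L x w = ∑ j, Pi.single j ((L j).p x (w j)) :=
    (sum_apply Finset.univ (fun j => inc L j x ∘L prj L j) w).trans rfl
  rw [h1, Finset.univ_sum_single]

/-- The direct sum. -/
abbrev rho (L : Fin n → Bun B) : Bun B :=
  ⟨PW L, dg L, fun x => ContinuousLinearMap.ext fun w => funext fun k => by
    show dg L x (dg L x w) k = dg L x w k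
    rw [dg_apply, dg_apply]
    exact congrArg (fun q : (L k).W →L[ℂ] (L k).W => q (w k)) ((L k).idem x)⟩

theorem split (L : Fin n → Bun B) : (rho L).Split L := by
  refine ⟨inc L, fun j => ContinuousMap.const B (prj L j), fun x => ⟨fun i => ?_, fun i j h => ?_,
    rfl⟩⟩
  · refine ContinuousLinearMap.ext fun w => ?_
    exact Pi.single_eq_same (M := fun j => (L j).W) i ((L i).p x w)
  · refine ContinuousLinearMap.ext fun w => ?_
    exact Pi.single_eq_of_ne (M := fun j => (L j).W) h ((L j).p x w)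

variable {D : PC S B (n + 1)} {L : Fin n → Bun B} (F : ∀ j : Fin n, Fr D (L j) (j + 1))

/-- The vectors. -/
def E (c : ℂ) : C(S, ℂ × PW L) :=
  ⟨fun s => (1, fun j => c ^ ((j : ℕ) + 1) • (F j).u s),
    continuous_const.prodMk (continuous_pi fun j =>
      (F j).u.continuous.fun_const_smul (c ^ ((j : ℕ) + 1)))⟩

/-- The dual vectors. -/
def Lm (c : ℂ) : C(S, (ℂ × PW L) →L[ℂ] ℂ) :=
  ⟨fun s => ((n + 1 : ℕ) : ℂ)⁻¹ • (ContinuousLinearMap.fst ℂ ℂ (PW L) +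
      ∑ j : Fin n, (c ^ ((j : ℕ) + 1))⁻¹ •
        ((F j).l s ∘L prj L j ∘L ContinuousLinearMap.snd ℂ ℂ (PW L))),
    by
      refine Continuous.fun_const_smul (Continuous.fun_add continuous_const
        (continuous_finsetSum _ fun j _ => Continuous.fun_const_smul ?_ _)) _
      exact (F j).l.continuous.clm_comp continuous_const⟩

theorem Lm_apply (c : ℂ) (s : S) (y : ℂ × PW L) :
    Lm F c s y = ((n + 1 : ℕ) : ℂ)⁻¹ * ∑ j : Fin (n + 1), (c ^ (j : ℕ))⁻¹ *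
      (Fin.cons y.1 fun j => (F j).l s (y.2 j) : Fin (n + 1) → ℂ) j := by
  rw [Fin.sum_univ_succ]
  show ((n + 1 : ℕ) : ℂ)⁻¹ * (y.1 + (∑ j : Fin n, (c ^ ((j : ℕ) + 1))⁻¹ •
        ((F j).l s ∘L prj L j ∘L ContinuousLinearMap.snd ℂ ℂ (PW L))) y) = _
  rw [sum_apply]
  simp only [Fin.val_zero, pow_zero, inv_one, one_mul, Fin.cons_zero, Fin.cons_succ, Fin.val_succ]
  rfl

theorem l_fib {s s' : S} (h : D.q s = D.q s') (j : Fin n) (w : (L j).W) :
    (F j).l s w = D.z s s' ^ ((j : ℕ) + 1) * (F j).l s' w := by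
  have h1 : ((F j).l s).smulRight ((F j).u s) = ((F j).l s').smulRight ((F j).u s') := by
    rw [← (F j).pq, ← (F j).pq, h]
  have h2 : (F j).l s w • (F j).u s = (F j).l s' w • (F j).u s' :=
    congrArg (fun q : (L j).W →L[ℂ] (L j).W => q w) h1
  have h3 := congrArg ((F j).l s) h2
  rw [(F j).fib s s' h, map_smul, map_smul, map_smul, (F j).lu, smul_eq_mul, smul_eq_mul,
    smul_eq_mul, mul_one, mul_one, mul_comm] at h3
  exact h3

theorem perm {ω z : ℂ} (hω : IsPrimitiveRoot ω (n + 1)) (hz : z ^ (n + 1) = 1) :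
    ∃ τ : Equiv.Perm (Fin (n + 1)), ∀ i, ω ^ (τ i : ℕ) = ω ^ (i : ℕ) * z := by
  have h1 : ∀ i : Fin (n + 1), ∃ k : Fin (n + 1), ω ^ (k : ℕ) = ω ^ (i : ℕ) * z := fun i => by
    obtain ⟨k, hk, e⟩ := hω.eq_pow_of_pow_eq_one (ξ := ω ^ (i : ℕ) * z) (by
      rw [mul_pow, hz, ← pow_mul, mul_comm (i : ℕ), pow_mul, hω.pow_eq_one, one_pow, one_mul])
    exact ⟨⟨k, hk⟩, e⟩
  choose t ht using h1
  have hz0 : z ≠ 0 := fun e => by simp [e] at hz
  have h2 : Function.Injective t := fun i k e =>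
    Fin.ext (hω.pow_inj i.2 k.2 (mul_right_cancel₀ hz0 (by rw [← ht, ← ht, e])))
  exact ⟨Equiv.ofBijective t (Finite.injective_iff_bijective.1 h2), ht⟩

end X4

open X4 in
theorem p4 : S_P4 := by
  intro S B _ _ n D L F
  have hω : IsPrimitiveRoot (Complex.exp (2 * Real.pi * Complex.I / ((n + 1 : ℕ) : ℂ))) (n + 1) :=
    Complex.isPrimitiveRoot_exp _ (Nat.succ_ne_zero n)
  generalize Complex.exp (2 * Real.pi * Complex.I / ((n + 1 : ℕ) : ℂ)) = ω at hω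
  have h0 : ((n + 1 : ℕ) : ℂ) ≠ 0 := Nat.cast_ne_zero.2 (Nat.succ_ne_zero n)
  have hs : ∀ s (y : ℂ × PW L), ∑ i : Fin (n + 1), Lm F (ω ^ (i : ℕ)) s y = y.1 := fun s y => by
    have h1 := inv hω (Fin.cons y.1 fun j => (F j).l s (y.2 j)) 0
    simp only [Fin.val_zero, pow_zero, mul_one, Fin.cons_zero] at h1
    exact (Finset.sum_congr rfl fun i _ => Lm_apply F _ s y).trans h1
  refine ⟨rho L, split L, ⟨⟨D.q, D.surj, fun i => E F (ω ^ (i : ℕ)), fun i => Lm F (ω ^ (i : ℕ)),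
    fun s i k => ?_, fun s y => ?_, hs, fun s s' h => ?_⟩⟩⟩
  · have h1 : ∀ j : Fin (n + 1), ((ω ^ (i : ℕ)) ^ (j : ℕ))⁻¹ *
        (Fin.cons (E F (ω ^ (k : ℕ)) s).1 fun j => (F j).l s ((E F (ω ^ (k : ℕ)) s).2 j) :
          Fin (n + 1) → ℂ) j = (ω ^ (k : ℕ)) ^ (j : ℕ) * ((ω ^ (i : ℕ)) ^ (j : ℕ))⁻¹ := fun j => by
      rw [mul_comm]
      congr 1
      refine Fin.cases ?_ (fun j => ?_) j
      · exact (pow_zero _).symm
      · show (F j).l s ((ω ^ (k : ℕ)) ^ ((j : ℕ) + 1) • (F j).u s) = _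
        rw [map_smul, (F j).lu, smul_eq_mul, mul_one, Fin.val_succ]
    rw [Lm_apply]
    simp only [h1]
    rw [orth hω]
    by_cases e : i = k
    · rw [if_pos e, if_pos e.symm, inv_mul_cancel₀ h0]
    · rw [if_neg e, if_neg (Ne.symm e), mul_zero]
  · refine Prod.ext ?_ (funext fun k => ?_)
    · rw [Prod.fst_sum]
      refine Eq.trans (Finset.sum_congr rfl fun i _ => ?_) (hs s y)
      exact mul_one _
    · have h1 := inv hω (Fin.cons y.1 fun j => (F j).l s (y.2 j)) k.succ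
      rw [Fin.cons_succ, Fin.val_succ] at h1
      rw [Prod.snd_sum, Finset.sum_apply]
      show ∑ i : Fin (n + 1), Lm F (ω ^ (i : ℕ)) s y • (ω ^ (i : ℕ)) ^ ((k : ℕ) + 1) • (F k).u s =
        dg L (D.q s) y.2 k
      rw [dg_apply, (F k).pq, ContinuousLinearMap.smulRight_apply, ← h1, Finset.sum_smul]
      refine Finset.sum_congr rfl fun i _ => ?_
      rw [Lm_apply, smul_smul]
  · obtain ⟨τ, hτ⟩ := perm hω (D.hz s s' h)
    have hz0 : D.z s s' ≠ 0 := fun e => by simpa [e] using D.hz s s' h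
    refine ⟨τ, fun i => ⟨Prod.ext rfl (funext fun j => ?_), ContinuousLinearMap.ext fun y => ?_⟩⟩
    · show (ω ^ (i : ℕ)) ^ ((j : ℕ) + 1) • (F j).u s' = (ω ^ (τ i : ℕ)) ^ ((j : ℕ) + 1) • (F j).u s
      rw [hτ, (F j).fib s s' h, mul_pow, smul_smul]
    · rw [Lm_apply, Lm_apply, hτ]
      congr 1
      refine Finset.sum_congr rfl fun j _ => ?_
      refine Fin.cases ?_ (fun j => ?_) j
      · simp
      · rw [Fin.cons_succ, Fin.cons_succ, l_fib F h, Fin.val_succ, mul_pow, mul_inv, mul_assoc,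
          inv_mul_cancel_left₀ (pow_ne_zero _ hz0)]

end

end Pool.Agent.MP_826def_gt.PD
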