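import Pool.Agent.MP_826def_gt.PD.Q
import Pool.Agent.MP_826def_gt.BD.D5

/-!
The power operation, its restriction to the diagonal and to a point.
-/

namespace Pool.Agent.MP_826def_gt.PD

open Set Topology Pool.Agent.MP_826def_gt.MU Pool.Agent.MP_826def_gt.BD

noncomputable section

/-- Composition with a fixed map. -/
def pre {E E' : FD} (V : FD) (f : E' →L[ℂ] E) : (E →L[ℂ] V) →L[ℂ] E' →L[ℂ] V :=
  (ContinuousLinearMap.compL ℂ E' E V).flip f

theorem pre_apply {E E' : FD} (V : FD) (f : E' →L[ℂ] E) (M : E →L[ℂ] V) :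
    pre V f M = M ∘L f := rfl

/-- The map `(y, Ψ) ↦ ((t, e) ↦ t y + Ψ e)`. -/
def jn (E V : FD) : (V × (E →L[ℂ] V)) →L[ℂ] (ℂ × E) →L[ℂ] V :=
  ContinuousLinearMap.smulRightL ℂ (ℂ × E) V (ContinuousLinearMap.fst ℂ ℂ E) ∘L
      ContinuousLinearMap.fst ℂ V (E →L[ℂ] V) +
    pre (E := E) (E' := FD.C.prod E) V (ContinuousLinearMap.snd ℂ ℂ E) ∘L
      ContinuousLinearMap.snd ℂ V (E →L[ℂ] V)

/-- The inverse of `jn`. -/
def rn (E V : FD) : ((ℂ × E) →L[ℂ] V) →L[ℂ] V × (E →L[ℂ] V) :=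
  (ContinuousLinearMap.apply ℂ V ((1, 0) : ℂ × E)).prod
    (pre (E := FD.C.prod E) (E' := E) V (ContinuousLinearMap.inr ℂ ℂ E))

theorem jn_apply {E V : FD} (y : V × (E →L[ℂ] V)) (e : ℂ × E) :
    jn E V y e = e.1 • y.1 + y.2 e.2 := rfl

theorem rn_fst {E V : FD} (M : (ℂ × E) →L[ℂ] V) : (rn E V M).1 = M (1, 0) := rfl

theorem rn_snd {E V : FD} (M : (ℂ × E) →L[ℂ] V) (e : E) : (rn E V M).2 e = M (0, e) := rfl

theorem rn_jn {E V : FD} (y : V × (E →L[ℂ] V)) : rn E V (jn E V y) = y :=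
  Prod.ext (by rw [rn_fst, jn_apply, one_smul, map_zero, add_zero])
    (ContinuousLinearMap.ext fun e => by rw [rn_snd, jn_apply, zero_smul, zero_add])

theorem split_apply {E V : FD} (M : (ℂ × E) →L[ℂ] V) (t : ℂ) (e : E) :
    t • M (1, 0) + M (0, e) = M (t, e) := by
  rw [← map_smul, ← map_add]
  congr 1
  exact Prod.ext (by simp) (by simp)

variable [C : Fact Core]

theorem p5 (A : Api) (t : S_Thom) : S_P5 := by
  intro S B X _ _ _ _ _ _ _ ρ n D c hc
  have g1 := C.out.good1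
  refine ⟨czero_good ρ hc, ?_⟩
  let ζ : Bun (B × X) :=
    (((Bun.triv B FD.C).sum ρ).pull ContinuousMap.fst).hom (Bun.triv (B × X) c.V)
  have hQ : (D.Q c (fun z : Tot ζ => z.1.1.1) (fun z => z.1.1.2) fun z => z.1.2).Good :=
    D.Q_good hc (Tot.proper ζ) fun z y =>
      congrArg (fun M : (ℂ × ρ.W) →L[ℂ] c.V => M y) z.2
  obtain ⟨hT, hB, -⟩ := t ζ (Tot.π ζ) (Tot.t ζ) (Tot.isTot ζ)
  obtain ⟨P, hP⟩ := hB.2 (cls (D.Q c (fun z : Tot ζ => z.1.1.1) (fun z => z.1.1.2) fun z => z.1.2))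
  have : T2Space (Tot ζ) := inferInstanceAs (T2Space {z : (B × X) × ζ.W // ζ.p z.1 z.2 = z.2})
  have e1 : ∀ s i, (D.e i s).1 = 1 := fun s i => by
    rw [← D.sum s]
    simp only [D.le, Finset.sum_ite_eq', Finset.mem_univ, if_true]
  have idem : ∀ b y, ρ.p b (ρ.p b y) = ρ.p b y := fun b y =>
    congrArg (fun r : ρ.W →L[ℂ] ρ.W => r y) (ρ.idem b)
  refine ⟨P, ?_, fun b => ?_⟩
  · let φ : C((B × X) × c.V, Tot ζ) :=
      ⟨fun z => ⟨(z.1, (ContinuousLinearMap.fst ℂ ℂ ρ.W).smulRight z.2), rfl⟩,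
        Continuous.subtype_mk (Continuous.prodMk continuous_fst
          ((ContinuousLinearMap.smulRightL ℂ (ℂ × ρ.W) c.V
            (ContinuousLinearMap.fst ℂ ℂ ρ.W)).continuous.comp continuous_snd)) _⟩
    have hφ : IsProperMap φ :=
      proper_of_left (g := fun z : Tot ζ => (z.1.1, z.1.2 (1, 0))) φ.continuous
        (continuous_subtype_val.fst.prodMk
          (continuous_subtype_val.snd.clm_apply continuous_const)) fun z =>
        Prod.ext rfl (one_smul ℂ z.2)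
    obtain ⟨h0, h1⟩ := A.tw.pull_twist _ _ _ φ hT hφ
    let η : Bun (B × X) := (ρ.pull ContinuousMap.fst).hom (Bun.triv (B × X) c.V)
    have h3 := (A.tw.twist_twist _ _ _ _ η 0 (A.pv.th (X := B × X) c.V).1
      (A.tw.tw_id η 0 fun x => map_zero _).1).2 P
    let uu : C((B × X) × c.V, ζ.W →L[ℂ] η.W × c.V) :=
      ⟨fun z => ((ContinuousLinearEquiv.prodComm ℂ c.V η.W : _ →L[ℂ] _) ∘L rn ρ.W c.V) ∘L ζ.p z.1,
        continuous_const.clm_comp (ζ.p.continuous.comp continuous_fst)⟩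
    let vv : C((B × X) × c.V, (η.W × c.V) →L[ℂ] ζ.W) :=
      ⟨fun z => ζ.p z.1 ∘L (jn ρ.W c.V ∘L (ContinuousLinearEquiv.prodComm ℂ η.W c.V : _ →L[ℂ] _)),
        (ζ.p.continuous.comp continuous_fst).clm_comp continuous_const⟩
    have h2 := (A.tw.iso _ _ ((η.pull ContinuousMap.fst).sum (Bun.triv ((B × X) × c.V) c.V)) _
      (((0 : C(B × X, η.W)).comp ContinuousMap.fst).prodMk ContinuousMap.snd) uu vv h0
      fun z => ⟨ContinuousLinearMap.ext fun M => ContinuousLinearMap.ext fun e => by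
          show e.1 • M (1, ρ.p z.1.1 0) + M (0, ρ.p z.1.1 (ρ.p z.1.1 e.2)) = M (e.1, ρ.p z.1.1 e.2)
          rw [map_zero, idem, split_apply],
        ContinuousLinearMap.ext fun y => Prod.ext (ContinuousLinearMap.ext fun e => by
          show (0 : ℂ) • y.2 + y.1 (ρ.p z.1.1 (ρ.p z.1.1 e)) = y.1 (ρ.p z.1.1 e)
          rw [zero_smul, zero_add, idem]) (by
          show (1 : ℂ) • y.2 + y.1 (ρ.p z.1.1 (ρ.p z.1.1 0)) = y.2
          rw [map_zero, map_zero, map_zero, one_smul, add_zero]),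
        Prod.ext (ContinuousLinearMap.ext fun e => zero_smul ℂ z.2) (one_smul ℂ z.2)⟩).2 P
    have h4 := (A.pv.th (X := B × X) c.V).2 (eul η P)
    have h5 : eul η P = pushV c.V (pull φ (cls (D.Q c (fun z : Tot ζ => z.1.1.1)
        (fun z => z.1.1.2) fun z => z.1.2))) := by
      rw [← h4, h3, ← hP, h1 P, h2]
      rfl
    refine h5.trans ?_
    rw [pull_cls hφ hQ, pushV_cls _ (g1.pull hQ hφ)]
    refine (BA.cls_const g1 (czero ρ c) _ (czero_good ρ hc) (g1.pushV c.V (g1.pull hQ hφ))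
      (ContinuousLinearEquiv.prodUnique ℂ c.V Unit) (jn ρ.W c.W) (rn ρ.W c.W)
      (ContinuousLinearMap.ext rn_jn) (fun z => ?_) (fun z _ => ?_) fun z _ => ?_).symm
    · show (∀ i, (z.1.2, (D.e i (D.sec z.1.1)).1 • z.2.1) ∈ c.O) ↔ (z.1.2, z.2.1) ∈ c.O
      simp only [e1, one_smul, forall_const]
    · refine ContinuousLinearMap.ext fun Φ => ContinuousLinearMap.ext fun y => ?_
      refine (Jn_apply (E := FD.C.prod ρ.W) _ _ y).trans ?_
      show ∑ i, D.l i (D.sec z.1.1) y • c.p (z.1.2, (D.e i (D.sec z.1.1)).1 • z.2.1)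
        (Φ (D.e i (D.sec z.1.1))) =
        y.1 • c.p (z.1.2, z.2.1) (Φ (1, 0)) + c.p (z.1.2, z.2.1) (Φ (0, ρ.p z.1.1 y.2))
      have h6 := D.pq (D.sec z.1.1) y
      rw [D.q_sec] at h6
      rw [← map_smul, ← map_add, split_apply, ← h6, map_sum, map_sum]
      simp only [e1, one_smul, map_smul]
    · refine ContinuousLinearMap.ext fun y => ?_
      refine (Jn_apply (E := FD.C.prod ρ.W) _ _ y).trans ?_
      show ∑ i, D.l i (D.sec z.1.1) y • c.s (z.1.2, (D.e i (D.sec z.1.1)).1 • z.2.1) =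
        y.1 • c.s (z.1.2, z.2.1) + 0
      simp only [e1, one_smul]
      rw [← Finset.sum_smul, D.sum, add_zero]
  · have hp : ∀ y, ∑ i, D.l i (D.sec b) y • D.e i (D.sec b) = (y.1, ρ.p b y.2) := fun y => by
      rw [D.pq, D.q_sec]
    have hl := Rn_Jn (E := FD.C.prod ρ.W) (W := c.V) (e := fun i => D.e i (D.sec b))
      (D.le (D.sec b))
    let φ : C(X × pw' n c.V, Tot ζ) :=
      ⟨fun z => ⟨((b, z.1), Jn (E := FD.C.prod ρ.W) c.V (fun i => D.l i (D.sec b)) z.2),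
        ContinuousLinearMap.ext fun e => by
          have h1 := Jn_Rn (E := FD.C.prod ρ.W) (fun i => D.e i (D.sec b))
            (fun i => D.l i (D.sec b))
            (Jn (E := FD.C.prod ρ.W) c.V (fun i => D.l i (D.sec b)) z.2) e
          rw [hl, hp] at h1
          exact h1.symm⟩,
        Continuous.subtype_mk (Continuous.prodMk (by fun_prop)
          ((Jn (E := FD.C.prod ρ.W) c.V fun i => D.l i (D.sec b)).continuous.comp
            continuous_snd)) _⟩
    have hφ : IsProperMap φ :=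
      proper_of_left (g := fun z : Tot ζ =>
        (z.1.1.2, Rn (E := FD.C.prod ρ.W) c.V (fun i => D.e i (D.sec b)) z.1.2)) φ.continuous
        (continuous_subtype_val.fst.snd.prodMk
          ((Rn (E := FD.C.prod ρ.W) c.V fun i => D.e i (D.sec b)).continuous.comp
            continuous_subtype_val.snd)) fun z => Prod.ext rfl (hl z.2)
    have hs : IsProperMap (slice X b) :=
      proper_of_left (slice X b).continuous continuous_snd fun _ => rfl
    obtain ⟨h0, h1⟩ := A.tw.pull_twist _ _ _ φ hT hφ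
    let uu : C(X × pw' n c.V, ζ.W →L[ℂ] pw' n c.V) :=
      ContinuousMap.const _ (Rn (E := FD.C.prod ρ.W) c.V fun i => D.e i (D.sec b))
    let vv : C(X × pw' n c.V, pw' n c.V →L[ℂ] ζ.W) :=
      ContinuousMap.const _ (Jn (E := FD.C.prod ρ.W) c.V fun i => D.l i (D.sec b))
    have h2 := (A.tw.iso _ _ (Bun.triv (X × pw' n c.V) (pw' n c.V)) _ ContinuousMap.snd uu vv h0
      fun z => ⟨ContinuousLinearMap.ext fun M => ContinuousLinearMap.ext fun e => by
          exact (Jn_Rn (E := FD.C.prod ρ.W) (W := c.V) _ _ M e).trans (congrArg M (hp e)),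
        by exact ContinuousLinearMap.ext hl, by exact hl z.2⟩).2 P
    have h3 := (A.tw.twist_pull _ _ _ (slice X b) (A.pv.th (X := X) (pw' n c.V)).1 hs).2 P
    have h4 := (A.pv.th (X := X) (pw' n c.V)).2 (pull (slice X b) P)
    have h5 : pull (slice X b) P = pushV (pw' n c.V) (pull φ (cls (D.Q c
        (fun z : Tot ζ => z.1.1.1) (fun z => z.1.1.2) fun z => z.1.2))) := by
      rw [← h4, h3, ← hP, h1 P, h2]
      rfl
    rw [h5, pull_cls hφ hQ, pushV_cls _ (g1.pull hQ hφ), ← cls_Craw hc]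
    have e2 : ∀ (w : Fin (n + 1) → c.V) i, Jn (E := FD.C.prod ρ.W) c.V
        (fun i => D.l i (D.sec b)) w (D.e i (D.sec b)) = w i := fun w i => congrFun (hl w) i
    refine (BA.cls_const g1 (Craw c n) _ (Craw_good hc n)
      (g1.pushV (pw' n c.V) (g1.pull hQ hφ)) (ContinuousLinearEquiv.prodUnique ℂ _ Unit)
      (Jn (E := FD.C.prod ρ.W) c.W fun i => D.l i (D.sec b))
      (Rn (E := FD.C.prod ρ.W) c.W fun i => D.e i (D.sec b))
      (ContinuousLinearMap.ext (Rn_Jn (D.le (D.sec b)))) (fun z => ?_) (fun z _ => ?_)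
      fun z _ => ?_).symm
    · show (∀ i, (z.1, Jn (E := FD.C.prod ρ.W) c.V (fun i => D.l i (D.sec b)) z.2.1
        (D.e i (D.sec b))) ∈ c.O) ↔ ∀ i, (z.1, z.2.1 i) ∈ c.O
      simp only [e2]
    · show _ ∘L (Dg fun i => c.p (z.1, Jn (E := FD.C.prod ρ.W) c.V (fun i => D.l i (D.sec b)) z.2.1
        (D.e i (D.sec b)))) ∘L _ = _
      simp only [e2]
      rfl
    · show Jn _ _ (fun i => c.s (z.1, Jn (E := FD.C.prod ρ.W) c.V (fun i => D.l i (D.sec b)) z.2.1
        (D.e i (D.sec b)))) = _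
      simp only [e2]
      rfl

end

end Pool.Agent.MP_826def_gt.PD
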