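import Pool.Agent.MP_826def_gt.PD.Spec
import Pool.Agent.MP_826def_gt.BD.D6
import Pool.Agent.MP_826def_gt.BD.D3

/-! The class on the diagonal. -/

namespace Pool.Agent.MP_826def_gt.PD

open Set Topology Pool.Agent.MP_826def_gt.MU Pool.Agent.MP_826def_gt.BD

noncomputable section

/-- The operator `A ↦ q ∘ A ∘ p`. -/
def X6.cj {V V' W : FD} (p : V' →L[ℂ] V) (q : W →L[ℂ] W) : (V →L[ℂ] W) →L[ℂ] V' →L[ℂ] W :=
  ContinuousLinearMap.compL ℂ V' W W q ∘L (ContinuousLinearMap.compL ℂ V' V W).flip p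

theorem X6.cj_apply {V V' W : FD} (p : V' →L[ℂ] V) (q : W →L[ℂ] W) (A : V →L[ℂ] W) :
    X6.cj p q A = q ∘L A ∘L p := rfl

theorem hom_split {X : Type} [TopologicalSpace X] (ρ ξ : Bun X) {n : ℕ} (L : Fin n → Bun X)
    (hL : ρ.Split L) : (ρ.hom ξ).Split fun j => (L j).hom ξ := by
  obtain ⟨u, v, huv⟩ := hL
  have pp : ∀ x (w : ξ.W), ξ.p x (ξ.p x w) = ξ.p x w := fun x w =>
    congrArg (fun q : ξ.W →L[ℂ] ξ.W => q w) (ξ.idem x)
  refine ⟨fun j => ⟨fun x => X6.cj (v j x) (ξ.p x), continuous_clm_apply.2 fun A =>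
      ξ.p.continuous.clm_comp (continuous_const.clm_comp (v j).continuous)⟩,
    fun j => ⟨fun x => X6.cj (u j x) (ξ.p x), continuous_clm_apply.2 fun A =>
      ξ.p.continuous.clm_comp (continuous_const.clm_comp (u j).continuous)⟩,
    fun x => ⟨fun i => ?_, fun i j hij => ?_, ?_⟩⟩
  · refine ContinuousLinearMap.ext fun A => ContinuousLinearMap.ext fun w => ?_
    show ξ.p x (ξ.p x (A (v i x (u i x w)))) = ξ.p x (A ((L i).p x w))
    rw [pp, ← (huv x).1 i]
    rfl
  · refine ContinuousLinearMap.ext fun A => ContinuousLinearMap.ext fun w => ?_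
    show ξ.p x (ξ.p x (A (v j x (u i x w)))) = 0
    have : v j x (u i x w) = 0 :=
      congrArg (fun q : (L i).W →L[ℂ] (L j).W => q w) ((huv x).2.1 j i hij.symm)
    rw [this, map_zero, map_zero, map_zero]
  · refine ContinuousLinearMap.ext fun A => ContinuousLinearMap.ext fun w => ?_
    rw [_root_.sum_apply, _root_.sum_apply]
    show ∑ i, ξ.p x (ξ.p x (A (u i x (v i x w)))) = ξ.p x (A (ρ.p x w))
    rw [← (huv x).2.2, _root_.sum_apply, map_sum, map_sum]
    exact Finset.sum_congr rfl fun i _ => pp _ _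

variable [C : Fact Core]

namespace X6

variable {B K : Type} [TopologicalSpace B] [CompactSpace B] [T2Space B] [TopologicalSpace K]
  [CompactSpace K] [T2Space K]

theorem cr_mul (A : Api) (c c' : h B) (y y' : h K) :
    cr c y * cr c' y' = cr (c * c') (y * y') := by
  rw [cr, cr, cr, A.act.self, A.act.self, A.act.self, ← pullR_apply, ← pullR_apply, ← pullR_apply,
    map_mul, map_mul]
  ring

theorem hi_cr (A : Api) {a : ℕ → ℕ → UU} {v c : h B} (hc : c ∈ AA a v) {w : h (B × K)}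
    (hw : w ∈ Hi a v K 0) : cr c (1 : h K) * w ∈ Hi a v K 0 := by
  induction hw using AddSubgroup.closure_induction with
  | mem z hz =>
    obtain ⟨c', hc', e, he, y, hy, rfl⟩ := hz
    exact AddSubgroup.subset_closure ⟨c * c', mul_mem hc hc', e, he, y, hy, by
      rw [cr_mul A, one_mul]⟩
  | zero => rw [mul_zero]; exact zero_mem _
  | add x y _ _ hx hy => rw [mul_add]; exact add_mem hx hy
  | neg x _ hx => rw [mul_neg]; exact neg_mem hx

theorem hi_mul (A : Api) {a : ℕ → ℕ → UU} {v : h B} {z w : h (B × K)} (hz : z ∈ Hi a v K 0)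
    (hw : w ∈ Hi a v K 0) : z * w ∈ Hi a v K 0 := by
  induction hz, hw using AddSubgroup.closure_induction₂ with
  | mem z w hz hw =>
    obtain ⟨c, hc, e, he, y, hy, rfl⟩ := hz
    obtain ⟨c', hc', e', he', y', hy', rfl⟩ := hw
    exact AddSubgroup.subset_closure ⟨c * c', mul_mem hc hc', e + e', add_pos he he', y * y',
      X3.deg_mul A hy hy', cr_mul A _ _ _ _⟩
  | zero_left => rw [zero_mul]; exact zero_mem _
  | zero_right => rw [mul_zero]; exact zero_mem _
  | add_left x y z _ _ _ hx hy => rw [add_mul]; exact add_mem hx hy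
  | add_right x y z _ _ _ hx hy => rw [mul_add]; exact add_mem hx hy
  | neg_left x y _ _ hx => rw [neg_mul]; exact neg_mem hx
  | neg_right x y _ _ hx => rw [mul_neg]; exact neg_mem hx

theorem hi_prod (A : Api) {a : ℕ → ℕ → UU} {v : h B} {ι : Type} (c : ι → h B)
    (x : ι → h (B × K)) (hc : ∀ j, c j ∈ AA a v) (hx : ∀ j, x j - cr (c j) (1 : h K) ∈ Hi a v K 0)
    (s : Finset ι) : ∏ j ∈ s, x j - cr (∏ j ∈ s, c j) (1 : h K) ∈ Hi a v K 0 := by
  classical
  induction s using Finset.induction_on with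
  | empty =>
    have : cr (1 : h B) (1 : h K) = 1 := by
      simp only [cr, ← pullR_apply, map_one, AddMonoid.End.one_apply]
    rw [Finset.prod_empty, Finset.prod_empty, this, sub_self]
    exact zero_mem _
  | insert j s hj ih =>
    rw [Finset.prod_insert hj, Finset.prod_insert hj]
    have e := cr_mul A (c j) (∏ j ∈ s, c j) (1 : h K) 1
    rw [one_mul] at e
    have h1 := add_mem (add_mem (hi_mul A (hx j) ih) (hi_cr A (hc j) ih))
      (hi_cr A (prod_mem fun i (_ : i ∈ s) => hc i) (hx j))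
    rw [← e]
    convert h1 using 1
    ring

omit [CompactSpace K] [T2Space K] in
theorem hi_le {a : ℕ → ℕ → UU} {v c : h B} (hc : c ∈ AA a v) (d : ℤ) :
    Hi a c K d ≤ Hi a v K d := by
  refine AddSubgroup.closure_mono ?_
  rintro _ ⟨c', hc', e, he, y, hy, rfl⟩
  refine ⟨c', (Subring.closure_le (t := AA a v)).2 ?_ hc', e, he, y, hy, rfl⟩
  rintro z (rfl | hz)
  · exact hc
  · exact Subring.subset_closure (mem_insert_of_mem _ hz)

theorem d4 (A : Api) (h4 : S_D4) {a : ℕ → ℕ → UU} (ha : IsFGL a) (ρ : Bun B) {n : ℕ}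
    (L : Fin n → Bun B) (v : h B) (ξ : Bun K) (k : ℕ) (hρ : ρ.Split L) (hL : ∀ j, (L j).Rk 1)
    (hv : ∀ j, eu (dual (L j)) ∈ AA a v) (hξ : ξ.Rk k) :
    eu ((ρ.pull ContinuousMap.fst).hom (ξ.pull ContinuousMap.snd)) -
      cr ((∏ j, eu (dual (L j))) ^ k) (1 : h K) ∈ Hi a v K 0 := by
  have h1 : (ρ.pull (ContinuousMap.fst : C(B × K, B))).Split
      fun j => (L j).pull ContinuousMap.fst := by
    obtain ⟨u, w, huw⟩ := hρ
    exact ⟨fun j => (u j).comp ContinuousMap.fst, fun j => (w j).comp ContinuousMap.fst,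
      fun x => huw x.1⟩
  rw [A.eul.split _ _ (hom_split _ (ξ.pull ContinuousMap.snd) _ h1), ← Finset.prod_pow]
  exact hi_prod A (fun j => eu (dual (L j)) ^ k) _ (fun j => pow_mem (hv j) k)
    (fun j => hi_le (hv j) 0 (h4 a ha (L j) ξ k (hL j) hξ)) Finset.univ

end X6

theorem p6 (A : Api) (h4 : BD.S_D4) : S_P6 := by
  intro a ha B X _ _ _ _ _ _ σ n L v c k d hσ hL hv hc hz hk hd
  obtain ⟨K, hK, hZK, hKO⟩ := exists_compact_between hc.cpt hc.op fun z hz => hz.1
  have : CompactSpace K := isCompact_iff_compactSpace.1 hK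
  let ξ : Bun K := ⟨c.W, ⟨fun z => c.p z.1, (hc.cp.mono hKO).domRestrict⟩,
    fun z => hc.idem _ (hKO z.2)⟩
  let ι : C(interior K, X × c.V) := ⟨Subtype.val, continuous_subtype_val⟩
  have hι : IsOpenEmbedding ι := isOpen_interior.isOpenEmbedding_subtypeVal
  let κ : C(interior K, K) := ⟨Set.inclusion interior_subset, continuous_inclusion _⟩
  have hr : ∀ z ∈ c.lift.Z, z.1 ∈ range ι := fun z hz => ⟨⟨z.1, hZK hz⟩, rfl⟩
  have hg : (c.lift.pull ι).Good := C.out.good1.pullO (C.out.good1.lift hc) hι.isEmbedding hr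
  have hu : IsDeg k (cls (c.lift.pull ι)) := A.deg.of_rk _ _ hg fun z hz => by
    have := hk _ hz.1
    simp only [FD.dim, Module.finrank_zero_of_subsingleton, Nat.cast_zero, add_zero]
    exact congrArg _ this
  let Ψ : h (B × K) →+ h (B × X) := (pushV c.V).comp ((push (BD.X6.emb B ι)).comp
    (AddMonoidHom.flip (act ((ContinuousMap.id B).prodMap κ)).toAddMonoidHom
      (pull ContinuousMap.snd (cls (c.lift.pull ι)))))
  have hΨ : ∀ w, Ψ w = pushV c.V (push (BD.X6.emb B ι) (act ((ContinuousMap.id B).prodMap κ) w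
      (pull ContinuousMap.snd (cls (c.lift.pull ι))))) := fun _ => rfl
  have e1 : Ψ (cr ((∏ j, eu (dual (L j))) ^ k) 1) = cr ((∏ j, eu (dual (L j))) ^ k) (cls c) := by
    rw [hΨ, BD.X6.cr_push A hι, map_one, AddMonoid.End.one_apply,
      A.fn.push_res ι _ hι (C.out.good1.lift hc) hr, A.pv.lift c hc]
  have e2 : Ψ (eu ((σ.pull ContinuousMap.fst).hom (ξ.pull ContinuousMap.snd))) =
      cls (czero σ c) := by
    rw [hΨ, ← (A.eul.act _ _).1, pull_cls (BD.X6.snd_proper _) hg,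
      twist_cls (A.tw.tw_id _ _ fun x => map_zero _).1 (C.out.good1.pull hg (BD.X6.snd_proper _)),
      ← A.pv.lift _ hz,
      ← A.fn.push_res (BD.X6.emb B ι) _ (BD.X6.emb_open hι) (C.out.good1.lift hz) ?_]
    · rfl
    · rintro ⟨⟨⟨b, x⟩, v⟩, o⟩ hz
      exact ⟨(b, ⟨(x, v), hZK ⟨hz.1, congrArg Prod.fst hz.2⟩⟩), rfl⟩
  rw [← e1, ← e2, ← map_sub]
  have := X6.d4 A h4 ha σ L v ξ k hσ hL hv fun z => hk _ (hKO z.2)
  refine (AddSubgroup.closure_le ((Hi a v X d).comap Ψ)).2 ?_ this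
  rintro _ ⟨c', hc', e, he, y, hy, rfl⟩
  refine AddSubgroup.subset_closure ⟨c', hc', e + d, by omega, _, ?_, BD.X6.cr_push A hι κ _ c' y⟩
  rw [IsDeg, A.deg.pushV, A.deg.push, act_def, show e + d + c.V.dim = e + k by omega,
    A.deg.prod _ _ _ _ _ hy, hu]

end

end Pool.Agent.MP_826def_gt.PD
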