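import Pool.Agent.MP_826def_gt.PD.Spec
import Pool.Agent.MP_826def_gt.BD.D3

/-!
The descent on the exponent on the product of a sphere bundle with a space.
-/

namespace Pool.Agent.MP_826def_gt.PD

open MU BD Set Topology

noncomputable section

namespace X7

open X2 X3
open D11 (top sph_prod division)

variable [Fact Core] {N : ℕ} (M : Bun (CP N N))

theorem pull_t (A : Api) (m : ℕ) : pullR (LS.g M m) (tt N) = eu (LS.σ M m) :=
  A.eul.pull (LS.g M m) (taut N N)

variable (X : Type) [TopologicalSpace X]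

abbrev pL (m : ℕ) : C(LS M m × X, CP N m × X) := (LS.π M m).prodMap (ContinuousMap.id X)

abbrev fL (m : ℕ) : C(LS M m × X, CP N N) := (LS.g M m).comp ContinuousMap.fst

abbrev iL (m : ℕ) : C(LS M m × X, LS M (m + 1) × X) :=
  (LS.incl M (Nat.le_succ m)).prodMap (ContinuousMap.id X)

abbrev xL (m : ℕ) : Bun (CP N m × X) := M.pull (fB X N m)

abbrev tL (m : ℕ) : C(LS M m × X, M.W) := (LS.τ M m).comp ContinuousMap.fst

omit [Fact Core] in
theorem sphL (m : ℕ) : IsSph (xL M X m) (pL M X m) (tL M X m) := sph_prod X (LS.isSph M m)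

theorem act_g (A : Api) (m : ℕ) (c : h (CP N N)) :
    act (fL M X m) c = act ContinuousMap.fst (pullR (LS.g M m) c) :=
  (A.act.base ContinuousMap.fst (LS.g M m) c).1.symm

theorem divH (A : Api) (g : S_Gys) (c : S_CPX) [T2Space X] [LocallyCompactSpace X]
    (w : h (CP N N)) (hw : eu M = tt N * w) (m : ℕ) (hm : m + 2 ≤ N) (y : Mod (fL M X (m + 2)))
    (hy : tt N • y = 0) : ∃ z : H X, Hpull (iL M X m) (Hpull (iL M X (m + 1)) y) =
      Hact (fL M X m) w (Hpull ContinuousMap.snd z) := by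
  obtain ⟨γ, hγ⟩ := g
  have nil : ∀ (l : ℕ) (y : Mod (fB X N l)), tt N ^ l • y = 0 := fun l y =>
    (act_top X A N l l y).symm.trans (by rw [(c N l).1, map_zero]; rfl)
  have free : ∀ l ≤ N, Function.Bijective fun c : Fin l → H X => ∑ i : Fin l,
      tt N ^ (i : ℕ) • (show H X →+ Mod (fB X N l) from Hpull ContinuousMap.snd) (c i) :=
    fun l hl => by
      have := (c N l).2 hl (ContinuousMap.snd : C(CP N l × X, X)) ContinuousMap.fst
        (Homeomorph.prodComm (CP N l) X).isHomeomorph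
      simp only [act_top X A] at this
      exact this
  have ee : ∀ (l : ℕ) (u : Mod (fB X N l)), Heul (xL M X l) u = (tt N * w) • u := fun l u => by
    rw [← hw]
    exact (A.eul.act (fB X N l) M).2 u
  let G : ∀ l, Mod (fL M X l) →ₗ[h (CP N N)] Mod (fB X N l) := fun l =>
    { toFun := γ (xL M X l) (pL M X l) (tL M X l)
      map_add' := map_add (γ (xL M X l) (pL M X l) (tL M X l))
      map_smul' := hγ.lin (xL M X l) (pL M X l) (tL M X l) (fB X N l) (sphL M X l) }
  obtain ⟨z, hz⟩ := division (B := fun l => Mod (fB X N l)) (S := fun l => Mod (fL M X l))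
    (M := H X) (tt N) w (fun l => lp A (fB X N l) (pL M X l) _ rfl) G
    (fun l => lp A (fB X N (l + 1)) (iB X N l) _ rfl)
    (fun l => lp A (fL M X (l + 1)) (iL M X l) _ rfl) (fun l => Hpull ContinuousMap.snd) m
    (free_ker _ _ _ (free _ hm) (nil _) _ (nil _))
    (free_ker _ _ _ (free _ (by omega)) (nil _) _ (nil _))
    (hγ.nat (xL M X (m + 2)) (pL M X (m + 2)) (tL M X (m + 2)) (iB X N (m + 1)) (pL M X (m + 1))
      (tL M X (m + 1)) (iL M X (m + 1)) (sphL M X _) (sphL M X (m + 1)) (proper_pm X _)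
      (fun _ => rfl) fun _ => rfl).2
    (fun y => (A.act.Hcomp _ _ (proper_pm X _) (proper_pm X _) y).trans
      (A.act.Hcomp (iB X N m) (pL M X m) (proper_pm X _) (proper_pm X _) y).symm)
    (fun y hy => ((hγ.exact _ _ _ (sphL M X (m + 1))).2.2.1 y).1 hy)
    (fun u hu => by
      obtain ⟨u', hu'⟩ := ((hγ.exact _ _ _ (sphL M X (m + 1))).2.1 u).1 hu
      exact ⟨u', (ee _ u').symm.trans hu'⟩)
    (fun u => (congrArg (Hpull (pL M X m)) (ee m u).symm).trans
      ((hγ.exact _ _ _ (sphL M X m)).2.1.apply_apply_eq_zero u))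
    (free_gen _ _ _ (free m (by omega)).2) y hy
  refine ⟨z, hz.trans ?_⟩
  exact congrArg (Hact (fL M X m) w)
    (A.act.Hcomp ContinuousMap.snd (pL M X m) (proper_snd X _) (proper_pm X _) z)

/-- The division lemma. -/
theorem div (A : Api) (g : S_Gys) (c : S_CPX) [T2Space X] [LocallyCompactSpace X]
    (w : h (CP N N)) (hw : eu M = tt N * w) (m : ℕ) (hm : m + 2 ≤ N) (y : h (LS M (m + 2) × X))
    (hy : act (fL M X (m + 2)) (tt N) y = 0) : ∃ z : h X,
    pull (iL M X m) (pull (iL M X (m + 1)) y) = act (fL M X m) w (pull ContinuousMap.snd z) := by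
  obtain ⟨z, hz⟩ := divH M X A g c w hw m hm ((y, 0) : H (LS M (m + 2) × X)) (Prod.ext hy
    (map_zero (act ((fL M X (m + 2)).comp ContinuousMap.fst) (tt N))))
  exact ⟨z.1, congrArg Prod.fst hz⟩

end X7

open X2 X3 X7
open D11 (Psi descent)

theorem p7 [Fact Core] (A : Api) (g : S_Gys) (c : S_CPX) : S_P7 := by
  intro a _ X _ _ _ R q R1 R2 R3 d R4 N k M w wA wD wM wq hk b z hz
  have ht : IsDeg 1 (tt N) := A.eul.deg _ 1 (A.bun.rk_taut N N)
  let j : ∀ m, h X →+ Mo (fL M X m) := fun m => pull ContinuousMap.snd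
  let r : ∀ m, Mo (fL M X (m + 1)) →ₗ[h (CP N N)] Mo (fL M X m) := fun m =>
    { toFun := pull (iL M X m)
      map_add' := map_add (pull (iL M X m))
      map_smul' := fun c y => (A.act.pull (fL M X (m + 1)) (iL M X m) c).1 y }
  let ev : ∀ m, Mo (fL M X (m + 1)) →+ h X := fun m =>
    pull (slice X (LS.incl M (Nat.le_add_left 1 m) b))
  let p : ∀ m, ℤ → Mo (fL M X m) →+ Mo (fL M X m) := fun m e => part e
  have evj : ∀ m c, ev m (j (m + 1) c) = c := fun m c =>
    (pull_comp (proper_snd X _) (proper_slice X _) c).trans (pull_id c)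
  have evt : ∀ m y, ev m (tt N • y) = 0 := fun m y => by
    refine ((A.act.pull (fL M X (m + 1)) (slice X _) (tt N)).1 y).trans ?_
    have := (A.act.base (toPt X) (ContinuousMap.const Unit
      (LS.g M (m + 1) (LS.incl M (Nat.le_add_left 1 m) b))) (tt N)).1
    rw [eu_pt A, map_zero] at this
    exact congrArg (fun φ : AddMonoid.End (h X) => φ _) this.symm
  have pc : ∀ m (c : h (CP N N)) (n : ℤ), IsDeg n c → ∀ e y,
      p m (n + e) (c • y) = c • p m e y := fun m c n hc e y =>
    A.deg.prod (fL M X m) (ContinuousMap.id _) n e c hc y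
  have pj : ∀ m e c, p m e (j m c) = j m (part e c) := fun m e c => A.deg.pull _ e c
  let Ps : ∀ m, AddSubgroup (h (LS M m × X)) := fun m =>
    Psi (T := Mo (fL M X m)) (tt N) (j m) R
  have Pt : ∀ m, ∀ y ∈ Psi (tt N) (j m) R, tt N • y ∈ Psi (tt N) (j m) R := fun m y hy =>
    D11.Psi.map (DistribSMul.toAddMonoidHom _ (tt N)) _ (fun i c hc => by
      rw [DistribSMul.toAddMonoidHom_apply, smul_smul, ← pow_succ']
      exact D11.Psi.mem _ _ _ hc) hy
  have Pa : ∀ m i l, ∀ y ∈ Ps m, act (toPt (LS M m × X)) (a i l) y ∈ Ps m := fun m i l y hy =>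
    D11.Psi.map (T := Mo (fL M X m)) (t := tt N) (j := j m) (R := R)
      (act (toPt (LS M m × X)) (a i l)) (Ps m) (fun n c hc => by
      have e1 := (A.act.comm (toPt (LS M m × X)) (fL M X m) (a i l) (tt N ^ n)).1 (j m c)
      have e2 := (A.act.pull (toPt X) (ContinuousMap.snd : C(LS M m × X, X)) (a i l)).1 c
      have e3 := D11.Psi.mem (tt N) (j m) n (R1 i l c hc)
      exact (congrArg (· ∈ Ps m)
        (e1.trans (congrArg (act (fL M X m) (tt N ^ n)) e2.symm))).mpr e3) hy
  have Pj : ∀ m, ∀ c ∈ R, j m c ∈ Psi (tt N) (j m) R := fun m c hc => by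
    have := D11.Psi.mem (tt N) (j m) 0 hc
    rwa [pow_zero, one_smul] at this
  have key := descent (S := fun m => Mo (fL M X m)) (tt N) w N d R j r ev p part
    (fun m hm y hy => X7.div M X A g c w wM m hm y hy)
    (fun m c => pull_comp (proper_snd X _) (proper_pm X _) c) evj evt
    (fun m y => pull_comp (proper_pm X _) (proper_slice X _) y)
    (fun m c => by
      obtain ⟨s, hs⟩ := wq
      rw [sub_eq_iff_eq_add'.1 hs, add_smul, mul_smul, map_add, evt, add_zero,
        Nat.cast_smul_eq_nsmul, map_nsmul, evj]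
      exact R3 c)
    (fun m c hc => act_AA A (fL M X m) (tt N) (Ps m) (Pt m) (Pa m) wA _ (Pj m c hc))
    (fun m e y => by rw [add_comm]; exact pc m _ 1 ht e y) pj
    (fun m e c => by
      have := pc m _ 0 wD e (j m c)
      rwa [zero_add, pj] at this)
    (fun m e y => (A.deg.pull (iL M X m) e y).symm) R2
    (fun e he c => R4 e he _ ((A.deg.proj e e c).trans (if_pos rfl))) k (2 * k) le_rfl hk
    (p (2 * k + 1) d z) ((A.deg.proj d d z).trans (if_pos rfl)) (by
      have h1 : (tt N ^ k • (show Mo (fL M X (2 * k + 1)) from z)) ∈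
          Psi (tt N) (j (2 * k + 1)) R := by
        have h3 : Hi a (eu (LS.σ M (2 * k + 1))) X d ≤ Ps (2 * k + 1) :=
          (AddSubgroup.closure_le _).2 (by
            rintro _ ⟨c, hc, e, he, y, hy, rfl⟩
            refine act_AA A ContinuousMap.fst (eu (LS.σ M (2 * k + 1))) (Ps (2 * k + 1))
              (fun y hy => ?_) (Pa _) hc _ (Pj _ y (R4 e he y hy))
            rw [← pull_t M A, ← act_g M X A]
            exact Pt _ y hy)
        have h4 := h3 hz
        rw [← pull_t M A, ← map_pow, ← act_g M X A] at h4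
        exact h4
      rw [← pc _ _ k (deg_pow A ht k)]
      refine D11.Psi.map (p (2 * k + 1) (k + d)) _ (fun i c hc => ?_) h1
      rw [show (k : ℤ) + d = i + (k + d - i) by ring, pc _ _ i (deg_pow A ht i), pj]
      exact D11.Psi.mem _ _ i (R2 _ c hc))
  exact (congrArg (· ∈ R) (A.deg.pull _ d z)).mpr key

end

end Pool.Agent.MP_826def_gt.PD
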