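import Pool.Agent.MP_826def_gt.PD.P1
import Pool.Agent.MP_826def_gt.PD.P2
import Pool.Agent.MP_826def_gt.PD.P3
import Pool.Agent.MP_826def_gt.PD.P4
import Pool.Agent.MP_826def_gt.PD.P5
import Pool.Agent.MP_826def_gt.PD.P6
import Pool.Agent.MP_826def_gt.PD.P7
import Pool.Agent.MP_826def_gt.PD.Glue
import Pool.Agent.MP_826def_gt.BD.D4

/-!
Quillen's descent at a prime.
-/

namespace Pool.Agent.MP_826def_gt.PD

open Pool.Agent.MP_826def_gt.MU

theorem quillen [Fact Core] (A : Api) (t : S_Thom) (g : S_Gys) (c : S_CPX) (p : S_PBT) : S_Qp :=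
  quillen_of A (p1 A) p2 p3 p4 (p5 A t) (p6 A (BD.d4 A p)) (p7 A g c)

end Pool.Agent.MP_826def_gt.PD
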