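import Pool.Agent.MP_826def_gt.PD.Spec
import Pool.Agent.MP_826def_gt.PP.Alg
import Pool.Agent.MP_826def_gt.BG.Fm

/-!
The Euler class of a tensor power as a formal multiple.
-/

namespace Pool.Agent.MP_826def_gt.PD

open Pool.Agent.MP_826def_gt.MU

theorem rk_tp [Fact Core] (A : Api) {X : Type} [TopologicalSpace X] (L : Bun X) (hL : L.Rk 1)
    (j : ℕ) : (tp L j).Rk 1 := by
  have h0 : (Bun.triv X FD.C).Rk 1 := by
    have := A.bun.rk_triv X FD.C
    rwa [show FD.C.dim = 1 from Module.finrank_self ℂ] at this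
  induction j with
  | zero => exact h0
  | succ j ih => exact A.bun.rk_hom _ _ _ _ (A.bun.rk_hom _ _ _ _ hL h0) ih

theorem eu_tp [Fact Core] (A : Api) {a : ℕ → ℕ → UU} (ha : IsFGL a) {K : Type} [TopologicalSpace K]
    [CompactSpace K] [T2Space K] (L : Bun K) (hL : L.Rk 1) (j : ℕ) :
    eu (tp L j) = PP.nm (cf (toU K) a) (eu L) j := by
  induction j with
  | zero =>
    have := A.eul.nz (ι := Unit) (fun _ => Bun.triv K FD.C) (fun _ => ContinuousMap.const K (1 : ℂ))
      (fun _ _ => rfl) fun _ => ⟨(), one_ne_zero⟩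
    rwa [Fintype.prod_unique] at this
  | succ j ih =>
    rw [PP.nm, ← ih, ha.tens _ _ (tp L (j + 1)) (rk_tp A L hL j) hL (rk_tp A L hL (j + 1))
      (A.bun.tens_tens _ _)]
    exact ((BG.sFm _ (cf (toU K) a) _ _).2.2.2 (fun i => by
      rw [cf, ha.fg.unit]
      split_ifs <;> simp) (fun i l => by rw [cf, cf, ha.fg.symm]) (ha.nil _ (rk_tp A L hL j))
      (ha.nil _ hL)).1

end Pool.Agent.MP_826def_gt.PD
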