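import Pool.Agent.MP_826def_gt.PD.Spec
import Pool.Agent.MP_826def_gt.BG.Fm
import Pool.Agent.MP_826def_gt.BD.D3

/-!
The Euler class of a tensor power of a line bundle.
-/

namespace Pool.Agent.MP_826def_gt.PD

open Set Topology Pool.Agent.MP_826def_gt.MU Pool.Agent.MP_826def_gt.BD

noncomputable section

namespace X1

open Finset in
theorem fm_exp {A : Type 1} [CommRing A] (a : ℕ → ℕ → A)
    (hu : ∀ i, a i 0 = if i = 1 then 1 else 0) (hs : ∀ i j, a i j = a j i) {x y : A} (M : ℕ)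
    (h1 : x ^ (M + 2) = 0) (h2 : y ^ (M + 2) = 0) : Fm a x y = x + y + x * y *
      ∑ i ∈ range (M + 1), ∑ j ∈ range (M + 1), a (i + 1) (j + 1) * (x ^ i * y ^ j) := by
  rw [BG.fm_eq a x y _ h1 h2, sum_range_succ']
  have e1 : ∑ j ∈ range (M + 2), a 0 j * (x ^ 0 * y ^ j) = y := by
    rw [sum_eq_single 1]
    · rw [hs 0 1, hu 1]; simp
    · intro j _ hj
      rw [hs 0 j, hu j, if_neg hj, zero_mul]
    · intro h; simp at h
  have e2 : ∑ i ∈ range (M + 1), a (i + 1) 0 * (x ^ (i + 1) * y ^ 0) = x := by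
    rw [sum_eq_single 0]
    · rw [hu]; simp
    · intro j _ hj
      rw [hu, if_neg (by omega), zero_mul]
    · intro h; simp at h
  rw [e1]
  simp only [sum_range_succ' (n := M + 1)]
  rw [sum_add_distrib, e2, mul_sum]
  have e3 : ∀ i ∈ range (M + 1),
      ∑ j ∈ range (M + 1), a (i + 1) (j + 1) * (x ^ (i + 1) * y ^ (j + 1)) =
      x * y * ∑ j ∈ range (M + 1), a (i + 1) (j + 1) * (x ^ i * y ^ j) := by
    intro i _
    rw [mul_sum]
    exact sum_congr rfl fun j _ => by ring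
  rw [sum_congr rfl e3]
  ring

variable [Fact Core]

theorem deg_add {K : Type} [TopologicalSpace K] {d : ℤ} {x y : h K} (hx : IsDeg d x)
    (hy : IsDeg d y) : IsDeg d (x + y) := by
  rw [IsDeg, map_add, show part d x = x from hx, show part d y = y from hy]

theorem step (A : Api) {a : ℕ → ℕ → UU} (ha : IsFGL a) {K : Type} [TopologicalSpace K]
    [CompactSpace K] [T2Space K] {x w : h K} (hx : IsDeg 1 x) (hn : IsNilpotent x)
    (hw : w ∈ AA a x) (dw : IsDeg 0 w) :
    ∃ S ∈ AA a x, IsDeg (-1) S ∧ Fm (cf (toU K) a) (x * w) x = x * w + x + x * w * x * S := by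
  obtain ⟨M, h1, h2⟩ := BG.nil_two ((Commute.all x w).isNilpotent_mul_right hn) hn
  have m1 : x ∈ AA a x := Subring.subset_closure (mem_insert _ _)
  have m2 : ∀ i l, cf (toU K) a i l ∈ AA a x := fun i l =>
    Subring.subset_closure (mem_insert_of_mem _ ⟨(i, l), rfl⟩)
  have dxw : IsDeg 1 (x * w) := by
    have := X3.deg_mul A hx dw
    rwa [add_zero] at this
  refine ⟨_, ?_, ?_, fm_exp (cf (toU K) a) (fun i => by
    rw [cf, ha.fg.unit]
    split_ifs <;> simp) (fun i l => by rw [cf, cf, ha.fg.symm]) M h1 h2⟩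
  · exact sum_mem fun i _ => sum_mem fun l _ =>
      mul_mem (m2 _ _) (mul_mem (pow_mem (mul_mem m1 hw) _) (pow_mem m1 _))
  · rw [IsDeg, map_sum]
    refine Finset.sum_congr rfl fun i _ => ?_
    rw [map_sum]
    refine Finset.sum_congr rfl fun l _ => ?_
    have h3 : IsDeg (1 - ((i + 1 : ℕ) : ℤ) - ((l + 1 : ℕ) : ℤ)) (cf (toU K) a (i + 1) (l + 1)) :=
      (A.deg.pull (toPt K) _ _).trans (congrArg (pull (toPt K)) (ha.deg (i + 1) (l + 1)))
    have h4 := X3.deg_mul A h3 (X3.deg_mul A (X3.deg_pow A dxw i) (X3.deg_pow A hx l))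
    rwa [show (1 - ((i + 1 : ℕ) : ℤ) - ((l + 1 : ℕ) : ℤ)) + ((i : ℤ) + (l : ℤ)) = -1 by
      push_cast; ring] at h4

end X1

open X1

theorem p1 [Fact Core] (A : Api) : S_P1 := by
  intro a ha K _ _ _ L hL j
  have hn : IsNilpotent (eu L) := ha.nil L hL
  have hx : IsDeg 1 (eu L) := A.eul.deg L 1 hL
  have rC : (Bun.triv K FD.C).Rk 1 := by
    have := A.bun.rk_triv K FD.C
    rwa [show FD.C.dim = 1 from Module.finrank_self ℂ] at this
  induction j with
  | zero =>
    refine ⟨rC, 0, zero_mem _, map_zero _, ?_, by simp⟩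
    have := A.eul.nz (ι := Unit) (fun _ => Bun.triv K FD.C)
      (fun _ => ContinuousMap.const K (1 : ℂ)) (fun _ _ => rfl) fun _ => ⟨(), one_ne_zero⟩
    rw [Fintype.prod_unique] at this
    rw [mul_zero]
    exact this
  | succ j ih =>
    obtain ⟨r, w, hw, dw, e, hd⟩ := ih
    have r' : (tp L (j + 1)).Rk 1 := A.bun.rk_hom _ _ 1 1 (A.bun.rk_hom _ _ 1 1 hL rC) r
    obtain ⟨S, hS, dS, eS⟩ := step A ha hx hn hw dw
    have m1 : eu L ∈ AA a (eu L) := Subring.subset_closure (mem_insert _ _)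
    refine ⟨r', w + 1 + eu L * (w * S), add_mem (add_mem hw (one_mem _))
      (mul_mem m1 (mul_mem hw hS)), deg_add (deg_add dw (A.deg.one K)) ?_, ?_, ?_⟩
    · have := X3.deg_mul A hx (X3.deg_mul A dw dS)
      rwa [zero_add, add_neg_cancel] at this
    · rw [ha.tens (tp L j) L (tp L (j + 1)) r hL r' (A.bun.tens_tens _ _), e, eS]
      ring
    · obtain ⟨c, hc⟩ := hd
      refine ⟨c + w * S, ?_⟩
      rw [mul_add, ← hc]
      push_cast
      ring

end

end Pool.Agent.MP_826def_gt.PD
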