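import Pool.Agent.MP_826def_gt.PD.Spec
import Pool.Agent.MP_826def_gt.BA.Pull

/-!
The power construction on one cocycle.
-/

namespace Pool.Agent.MP_826def_gt.PD

open Set Topology Pool.Agent.MP_826def_gt.MU Pool.Agent.MP_826def_gt.BD

noncomputable section

/-- Families of vectors. -/
abbrev pw' (n : ℕ) (W : FD) : FD := ⟨Fin (n + 1) → W⟩

section ops

variable {E W : FD} {n : ℕ}

/-- The map `a ↦ ∑ a i l i`. -/
def Jn (W : FD) (l : Fin (n + 1) → E →L[ℂ] ℂ) : (Fin (n + 1) → W) →L[ℂ] E →L[ℂ] W :=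
  ∑ i, ContinuousLinearMap.smulRightL ℂ E W (l i) ∘L ContinuousLinearMap.proj i

/-- The values on a frame. -/
def Rn (W : FD) (e : Fin (n + 1) → E) : (E →L[ℂ] W) →L[ℂ] Fin (n + 1) → W :=
  ContinuousLinearMap.pi fun i => ContinuousLinearMap.apply ℂ W (e i)

/-- The diagonal operator. -/
def Dg (p : Fin (n + 1) → W →L[ℂ] W) : (Fin (n + 1) → W) →L[ℂ] Fin (n + 1) → W :=
  ContinuousLinearMap.pi fun i => p i ∘L ContinuousLinearMap.proj i

theorem Jn_apply (l : Fin (n + 1) → E →L[ℂ] ℂ) (a : Fin (n + 1) → W) (y : E) :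
    Jn W l a y = ∑ i, l i y • a i := by
  rw [Jn, sum_apply, sum_apply]
  rfl

theorem Rn_apply (e : Fin (n + 1) → E) (Φ : E →L[ℂ] W) (i : Fin (n + 1)) :
    Rn W e Φ i = Φ (e i) := rfl

theorem Dg_apply (p : Fin (n + 1) → W →L[ℂ] W) (a : Fin (n + 1) → W) (i : Fin (n + 1)) :
    Dg p a i = p i (a i) := rfl

theorem Rn_Jn {e : Fin (n + 1) → E} {l : Fin (n + 1) → E →L[ℂ] ℂ}
    (H : ∀ i k, l i (e k) = if i = k then 1 else 0) (a : Fin (n + 1) → W) :
    Rn W e (Jn W l a) = a := by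
  funext k
  rw [Rn_apply, Jn_apply]
  simp only [H, ite_smul, one_smul, zero_smul, Finset.sum_ite_eq', Finset.mem_univ, if_true]

theorem Jn_Rn (e : Fin (n + 1) → E) (l : Fin (n + 1) → E →L[ℂ] ℂ) (Φ : E →L[ℂ] W) (y : E) :
    Jn W l (Rn W e Φ) y = Φ (∑ i, l i y • e i) := by
  rw [Jn_apply, map_sum]
  exact Finset.sum_congr rfl fun i _ => (map_smul Φ _ _).symm

theorem Jn_perm (l : Fin (n + 1) → E →L[ℂ] ℂ) (a : Fin (n + 1) → W) (τ : Equiv.Perm (Fin (n + 1))) :
    Jn W (fun i => l (τ i)) (fun i => a (τ i)) = Jn W l a :=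
  ContinuousLinearMap.ext fun y => by
    rw [Jn_apply, Jn_apply]
    exact Equiv.sum_comp τ fun i => l i y • a i

theorem Dg_idem {p : Fin (n + 1) → W →L[ℂ] W} (hp : ∀ i, p i ∘L p i = p i) (a : Fin (n + 1) → W) :
    Dg p (Dg p a) = Dg p a :=
  funext fun i => congrArg (fun r : W →L[ℂ] W => r (a i)) (hp i)

variable {T : Type} [TopologicalSpace T] {N : Set T}

theorem contOn_Jn {l : T → Fin (n + 1) → E →L[ℂ] ℂ} {a : T → Fin (n + 1) → W}
    (hl : ∀ i, ContinuousOn (fun t => l t i) N) (ha : ∀ i, ContinuousOn (fun t => a t i) N) :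
    ContinuousOn (fun t => Jn W (l t) (a t)) N := by
  refine continuousOn_clm_apply.2 fun y => ?_
  simp only [Jn_apply]
  exact continuousOn_finsetSum _ fun i _ => ((hl i).clm_apply continuousOn_const).smul (ha i)

end ops

variable {S B X T : Type} [TopologicalSpace S] [TopologicalSpace B] [TopologicalSpace X]
  [TopologicalSpace T]

/-- The product of `n + 1` copies of a cocycle. -/
abbrev Craw {X : Type} (c : Raw X) (n : ℕ) : Raw X :=
  ⟨pw' n c.V, pw' n c.W, {z | ∀ i, (z.1, z.2 i) ∈ c.O}, fun z => Dg fun i => c.p (z.1, z.2 i),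
    fun z i => c.s (z.1, z.2 i)⟩

theorem Craw_good [T2Space X] {c : Raw X} (hc : c.Good) (n : ℕ) : (Craw c n).Good := by
  have hk : ∀ i, Continuous fun z : X × (Fin (n + 1) → c.V) => (z.1, z.2 i) := fun i => by fun_prop
  refine ⟨?_, continuousOn_clm_apply.2 fun y => continuousOn_pi.2 fun i =>
      (hc.cp.comp (hk i).continuousOn fun z (hz : z ∈ (Craw c n).O) => hz i).clm_apply
        continuousOn_const,
    continuousOn_pi.2 fun i => hc.cs.comp (hk i).continuousOn fun z hz => hz i,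
    fun z hz => ContinuousLinearMap.ext (Dg_idem fun i => hc.idem _ (hz i)),
    fun z hz => funext fun i => hc.sec _ (hz i), ?_⟩
  · have := isOpen_iInter_of_finite fun i => hc.op.preimage (hk i)
    exact (congrArg IsOpen (Set.ext fun z => mem_iInter)).mp this
  · have e : (Craw c n).Z = ⋂ i, (fun z : X × (Fin (n + 1) → c.V) => (z.1, z.2 i)) ⁻¹' c.Z :=
      Set.ext fun z => ⟨fun hz => mem_iInter.2 fun i => ⟨hz.1 i, congrFun hz.2 i⟩,
        fun hz => ⟨fun i => (mem_iInter.1 hz i).1, funext fun i => (mem_iInter.1 hz i).2⟩⟩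
    rw [e]
    refine ((hc.cpt.image continuous_fst).prod (isCompact_univ_pi fun _ =>
      hc.cpt.image continuous_snd)).of_isClosed_subset
      (isClosed_iInter fun i => hc.cpt.isClosed.preimage (hk i)) fun z hz =>
        ⟨⟨_, mem_iInter.1 hz 0, rfl⟩, fun i _ => ⟨_, mem_iInter.1 hz i, rfl⟩⟩

theorem cls_Craw [C : Fact Core] [T2Space X] {c : Raw X} (hc : c.Good) (n : ℕ) :
    cls (Craw c n) = pw (cls c) n := by
  induction n with
  | zero =>
    refine (BA.cls_const C.out.good1 c (Craw c 0) hc (Craw_good hc 0)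
      (ContinuousLinearEquiv.funUnique (Fin 1) ℂ c.V)
      (ContinuousLinearEquiv.funUnique (Fin 1) ℂ c.W).symm
      (ContinuousLinearEquiv.funUnique (Fin 1) ℂ c.W) (ContinuousLinearMap.ext fun _ => rfl)
      (fun z => Fin.forall_fin_one) (fun z _ => ContinuousLinearMap.ext fun y => funext fun i => ?_)
      fun z _ => funext fun i => ?_).symm
    · obtain rfl := Fin.fin_one_eq_zero i
      rfl
    · obtain rfl := Fin.fin_one_eq_zero i
      rfl
  | succ n ih =>
    have hI := pr_id (ContinuousMap.id X)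
    rw [pw, ← ih, prod_cls hI hc (Craw_good hc n)]
    refine (BA.cls_const C.out.good1 (c.prod (Craw c n) _ _) (Craw c (n + 1))
      (C.out.good2.prod hc (Craw_good hc n) hI) (Craw_good hc (n + 1))
      (Fin.consEquivL ℂ fun _ : Fin (n + 2) => c.V).symm
      (Fin.consEquivL ℂ fun _ : Fin (n + 2) => c.W)
      (Fin.consEquivL ℂ fun _ : Fin (n + 2) => c.W).symm
      (ContinuousLinearMap.ext fun y =>
        (Fin.consEquivL ℂ fun _ : Fin (n + 2) => c.W).symm_apply_apply y)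
      (fun z => Fin.forall_fin_succ) (fun z _ => ContinuousLinearMap.ext fun y => funext fun i => ?_)
      fun z _ => funext fun i => ?_).symm
    · refine Fin.cases ?_ (fun i => ?_) i <;> rfl
    · refine Fin.cases ?_ (fun i => ?_) i <;> rfl

/-- The cocycle with the points `A e_i`. -/
abbrev Qraw {X T : Type} (c : Raw X) {E : FD} {n : ℕ} (e : T → Fin (n + 1) → E)
    (l : T → Fin (n + 1) → E →L[ℂ] ℂ) (χ : T → X) (A : T → E →L[ℂ] c.V) : Raw T :=
  ⟨FD.zero, E.hom c.W, {z | ∀ i, (χ z.1, A z.1 (e z.1 i)) ∈ c.O},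
    fun z => Jn c.W (l z.1) ∘L (Dg fun i => c.p (χ z.1, A z.1 (e z.1 i))) ∘L Rn c.W (e z.1),
    fun z => Jn c.W (l z.1) fun i => c.s (χ z.1, A z.1 (e z.1 i))⟩

namespace Pm

variable {ρ : Bun B} {n : ℕ} (D : Pm S ρ n)

/-- A chosen point over `b`. -/
def sec (b : B) : S := Function.surjInv D.surj b

theorem q_sec (b : B) : D.q (D.sec b) = b := Function.surjInv_eq D.surj b

/-- The power construction over a space `T` with maps to `B`, `X` and `Hom`. -/
abbrev Q (c : Raw X) (β : T → B) (χ : T → X) (A : T → (FD.C.prod ρ.W) →L[ℂ] c.V) : Raw T :=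
  Qraw c (E := FD.C.prod ρ.W) (fun t i => D.e i (D.sec (β t))) (fun t i => D.l i (D.sec (β t))) χ A

omit [TopologicalSpace X] [TopologicalSpace T] in
theorem Q_at (c : Raw X) (β : T → B) (χ : T → X) (A : T → (FD.C.prod ρ.W) →L[ℂ] c.V) (s : S)
    (z : T × Unit) (e : D.q s = β z.1) :
    (z ∈ (D.Q c β χ A).O ↔ ∀ i, (χ z.1, A z.1 (D.e i s)) ∈ c.O) ∧
    (∀ Φ, (D.Q c β χ A).p z Φ = Jn (E := FD.C.prod ρ.W) c.W (fun i => D.l i s)
      fun i => c.p (χ z.1, A z.1 (D.e i s)) (Φ (D.e i s))) ∧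
    (D.Q c β χ A).s z = Jn (E := FD.C.prod ρ.W) c.W (fun i => D.l i s)
      fun i => c.s (χ z.1, A z.1 (D.e i s)) := by
  obtain ⟨τ, hτ⟩ := D.fib s (D.sec (β z.1)) (e.trans (D.q_sec _).symm)
  refine ⟨?_, fun Φ => ?_, ?_⟩
  · show (∀ i, (χ z.1, A z.1 (D.e i (D.sec (β z.1)))) ∈ c.O) ↔ _
    simp only [(hτ _).1]
    exact τ.forall_congr_right (q := fun i => (χ z.1, A z.1 (D.e i s)) ∈ c.O)
  · show Jn (E := FD.C.prod ρ.W) c.W (fun i => D.l i (D.sec (β z.1)))
      (fun i => c.p (χ z.1, A z.1 (D.e i (D.sec (β z.1)))) (Φ (D.e i (D.sec (β z.1))))) = _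
    simp only [(hτ _).1, (hτ _).2]
    exact Jn_perm (E := FD.C.prod ρ.W) (fun i => D.l i s)
      (fun i => c.p (χ z.1, A z.1 (D.e i s)) (Φ (D.e i s))) τ
  · show Jn (E := FD.C.prod ρ.W) c.W (fun i => D.l i (D.sec (β z.1)))
      (fun i => c.s (χ z.1, A z.1 (D.e i (D.sec (β z.1))))) = _
    simp only [(hτ _).1, (hτ _).2]
    exact Jn_perm (E := FD.C.prod ρ.W) (fun i => D.l i s)
      (fun i => c.s (χ z.1, A z.1 (D.e i s))) τ

theorem Q_good [CompactSpace S] [T2Space B] [T2Space X] {c : Raw X} (hc : c.Good) {β : T → B}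
    {χ : T → X} {A : T → (FD.C.prod ρ.W) →L[ℂ] c.V}
    (hP : IsProperMap fun t => ((β t, χ t), A t))
    (hA : ∀ t y, A t (y.1, ρ.p (β t) y.2) = A t y) : (D.Q c β χ A).Good := by
  have cβ : Continuous β := hP.continuous.fst.fst
  have cχ : Continuous χ := hP.continuous.fst.snd
  have cA : Continuous A := hP.continuous.snd
  have hF : IsClosed {y : S × (T × Unit) | D.q y.1 = β y.2.1} :=
    isClosed_eq (by fun_prop) (by fun_prop)
  let π : {y : S × (T × Unit) | D.q y.1 = β y.2.1} → T × Unit := fun y => y.1.2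
  have hπ : IsProperMap π := isProperMap_snd_of_compactSpace.comp hF.isProperMap_subtypeVal
  have hq : IsQuotientMap π := hπ.isClosedMap.isQuotientMap hπ.continuous fun z =>
    ⟨⟨(D.sec (β z.1), z), D.q_sec _⟩, rfl⟩
  let f : Fin (n + 1) → {y : S × (T × Unit) | D.q y.1 = β y.2.1} → X × c.V := fun i y =>
    (χ y.1.2.1, A y.1.2.1 (D.e i y.1.1))
  have ce : ∀ i, Continuous fun y : {y : S × (T × Unit) | D.q y.1 = β y.2.1} => D.e i y.1.1 :=
    fun i => (D.e i).continuous.comp (by fun_prop)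
  have cl : ∀ i, Continuous fun y : {y : S × (T × Unit) | D.q y.1 = β y.2.1} => D.l i y.1.1 :=
    fun i => (D.l i).continuous.comp (by fun_prop)
  have cf : ∀ i, Continuous (f i) := fun i =>
    (cχ.comp (by fun_prop)).prodMk ((cA.comp (by fun_prop)).clm_apply (ce i))
  have hO : π ⁻¹' (D.Q c β χ A).O = ⋂ i, f i ⁻¹' c.O :=
    Set.ext fun y => (D.Q_at c β χ A y.1.1 y.1.2 y.2).1.trans
      (mem_iInter (s := fun i => f i ⁻¹' c.O)).symm
  have op : IsOpen (D.Q c β χ A).O := by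
    rw [← hq.isOpen_preimage, hO]
    exact isOpen_iInter_of_finite fun i => hc.op.preimage (cf i)
  refine ⟨op, continuousOn_clm_apply.2 fun Φ => ?_, ?_, fun z hz => ?_, fun z hz => ?_, ?_⟩
  · rw [hq.continuousOn_isOpen_iff op, hO]
    refine (contOn_Jn (E := FD.C.prod ρ.W) (fun i => (cl i).continuousOn) fun i =>
      (hc.cp.comp (cf i).continuousOn fun y hy => mem_iInter.1 hy i).clm_apply
        (Φ.continuous.comp (ce i)).continuousOn).congr fun y _ => ?_
    exact (D.Q_at c β χ A y.1.1 y.1.2 y.2).2.1 Φ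
  · rw [hq.continuousOn_isOpen_iff op, hO]
    refine (contOn_Jn (E := FD.C.prod ρ.W) (fun i => (cl i).continuousOn) fun i =>
      hc.cs.comp (cf i).continuousOn fun y hy => mem_iInter.1 hy i).congr fun y _ => ?_
    exact (D.Q_at c β χ A y.1.1 y.1.2 y.2).2.2
  · refine ContinuousLinearMap.ext fun Φ => ?_
    show Jn _ _ (Dg _ (Rn _ _ (Jn _ _ (Dg _ (Rn _ _ Φ))))) = Jn _ _ (Dg _ (Rn _ _ Φ))
    rw [Rn_Jn (D.le _), Dg_idem fun i => hc.idem _ (hz i)]
  · show Jn _ _ (Dg _ (Rn _ _ (Jn _ _ _))) = Jn _ _ _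
    rw [Rn_Jn (D.le _)]
    exact congrArg _ (funext fun i => hc.sec _ (hz i))
  · have hK : IsCompact ((univ : Set S) ×ˢ (Craw c n).Z) := isCompact_univ.prod (Craw_good hc n).cpt
    let g : S × (X × (Fin (n + 1) → c.V)) → (B × X) × ((FD.C.prod ρ.W) →L[ℂ] c.V) := fun y =>
      ((D.q y.1, y.2.1), Jn (E := FD.C.prod ρ.W) c.V (fun i => D.l i y.1) y.2.2)
    have cg : Continuous g := by
      refine Continuous.prodMk (by fun_prop) (continuousOn_univ.1 (contOn_Jn (fun i => ?_)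
        fun i => ?_))
      · exact ((D.l i).continuous.comp continuous_fst).continuousOn
      · exact Continuous.continuousOn (by fun_prop)
    have hZ := (hP.comp (isProperMap_fst_of_compactSpace (Y := Unit))).isCompact_preimage
      (hK.image cg)
    have e : (D.Q c β χ A).Z = ((fun t => ((β t, χ t), A t)) ∘ Prod.fst) ⁻¹'
        (g '' ((univ : Set S) ×ˢ (Craw c n).Z)) := by
      refine Set.ext fun z => ⟨fun hz => ?_, ?_⟩
      · have h0 := congrArg (Rn (E := FD.C.prod ρ.W) c.W fun i => D.e i (D.sec (β z.1))) hz.2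
        rw [map_zero] at h0
        refine ⟨(D.sec (β z.1), (χ z.1, fun i => A z.1 (D.e i (D.sec (β z.1))))),
          ⟨mem_univ _, hz.1, (Rn_Jn (D.le _) _).symm.trans h0⟩,
          Prod.ext (Prod.ext (D.q_sec _) rfl) (ContinuousLinearMap.ext fun y => ?_)⟩
        refine (Jn_Rn (E := FD.C.prod ρ.W) (fun i => D.e i (D.sec (β z.1)))
          (fun i => D.l i (D.sec (β z.1))) (A z.1) y).trans ?_
        rw [D.pq, D.q_sec]
        exact hA z.1 y
      · rintro ⟨⟨s, x, w⟩, ⟨-, h1⟩, h4⟩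
        have e1 : D.q s = β z.1 := congrArg (fun r => r.1.1) h4
        have e2 : x = χ z.1 := congrArg (fun r => r.1.2) h4
        have e3 : Jn (E := FD.C.prod ρ.W) c.V (fun i => D.l i s) w = A z.1 :=
          congrArg (fun r => r.2) h4
        have e4 : ∀ i, A z.1 (D.e i s) = w i := fun i => by
          rw [← e3]
          exact congrFun (Rn_Jn (E := FD.C.prod ρ.W) (e := fun i => D.e i s) (D.le s) w) i
        obtain ⟨a1, -, a3⟩ := D.Q_at c β χ A s z e1
        refine ⟨a1.2 fun i => ?_, a3.trans ?_⟩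
        · rw [e4, ← e2]
          exact h1.1 i
        · have e5 : (fun i => c.s (χ z.1, A z.1 (D.e i s))) = 0 := funext fun i => by
            rw [e4, ← e2]
            exact congrFun h1.2 i
          rw [e5]
          exact map_zero _
    rw [e]
    exact hZ

end Pm

end

end Pool.Agent.MP_826def_gt.PD
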