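import Pool.Agent.MP_826def_gt.BD.Spec
import Pool.Agent.MP_826def_gt.D11.RP

/-!
Statements of the steps of the descent with the power operation of a cyclic group.
-/

namespace Pool.Agent.MP_826def_gt.PD

open Set Topology Pool.Agent.MP_826def_gt.MU Pool.Agent.MP_826def_gt.BD
open D11 (top)

noncomputable section

/-- Tensor powers. -/
def tp {X : Type} [TopologicalSpace X] (L : Bun X) : ℕ → Bun X
  | 0 => Bun.triv X FD.C
  | j + 1 => (tp L j).tens L

/-- The unit sphere bundle of `M` over the lines in the first `m` coordinates. -/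
def LS {N : ℕ} (M : Bun (CP N N)) (m : ℕ) : Type :=
  {z : CP N m × M.W // M.p (top N m z.1) z.2 = z.2 ∧ ‖z.2‖ = 1}

section

variable {N : ℕ} (M : Bun (CP N N))

instance (m : ℕ) : MetricSpace (LS M m) := Subtype.metricSpace

instance (m : ℕ) : CompactSpace (LS M m) := by
  refine isCompact_iff_compactSpace.1 (?_ : IsCompact {z : CP N m × M.W | _})
  refine (isCompact_univ.prod (isCompact_sphere (0 : M.W) 1)).of_isClosed_subset
    (IsClosed.inter (isClosed_eq ((M.p.continuous.comp ((top N m).continuous.comp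
      continuous_fst)).clm_apply continuous_snd) continuous_snd)
      (isClosed_eq continuous_snd.norm continuous_const))
    fun z hz => ⟨mem_univ _, by simpa using hz.2⟩

def LS.π (m : ℕ) : C(LS M m, CP N m) := ⟨fun z => z.1.1, continuous_subtype_val.fst⟩

def LS.τ (m : ℕ) : C(LS M m, M.W) := ⟨fun z => z.1.2, continuous_subtype_val.snd⟩

theorem LS.isSph (m : ℕ) : IsSph (M.pull (top N m)) (LS.π M m) (LS.τ M m) :=
  ⟨IsEmbedding.subtypeVal, Subtype.range_coe_subtype⟩

def LS.incl {m m' : ℕ} (hm : m ≤ m') : C(LS M m, LS M m') :=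
  ⟨fun z => ⟨(CP.incl N hm z.1.1, z.1.2), z.2⟩, Continuous.subtype_mk
    (((CP.incl N hm).continuous.comp continuous_subtype_val.fst).prodMk
      continuous_subtype_val.snd) _⟩

/-- The map to the full projective space. -/
abbrev LS.g (m : ℕ) : C(LS M m, CP N N) := (top N m).comp (LS.π M m)

/-- The tautological bundle on the sphere bundle. -/
abbrev LS.σ (m : ℕ) : Bun (LS M m) := (taut N N).pull (LS.g M m)

end

/-- A surjection with a root of unity for every pair of points in the same fibre. -/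
structure PC (S B : Type) [TopologicalSpace S] [TopologicalSpace B] (p : ℕ) where
  q : C(S, B)
  surj : Function.Surjective q
  z : S → S → ℂ
  hz : ∀ s s', q s = q s' → z s s' ^ p = 1

/-- A frame of weight `j` of a line bundle. -/
structure Fr {S B : Type} [TopologicalSpace S] [TopologicalSpace B] {p : ℕ} (D : PC S B p)
    (L : Bun B) (j : ℕ) where
  u : C(S, L.W)
  l : C(S, L.W →L[ℂ] ℂ)
  lu : ∀ s, l s (u s) = 1
  pq : ∀ s, L.p (D.q s) = (l s).smulRight (u s)
  fib : ∀ s s', D.q s = D.q s' → u s' = D.z s s' ^ j • u s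

/-- A frame of the bundle `ℂ ⊕ ρ` that is determined up to a permutation, with the sum of the
dual vectors equal to the first coordinate. -/
structure Pm (S : Type) [TopologicalSpace S] {B : Type} [TopologicalSpace B] (ρ : Bun B)
    (n : ℕ) where
  q : C(S, B)
  surj : Function.Surjective q
  e : Fin (n + 1) → C(S, ℂ × ρ.W)
  l : Fin (n + 1) → C(S, (ℂ × ρ.W) →L[ℂ] ℂ)
  le : ∀ s i k, l i s (e k s) = if i = k then 1 else 0
  pq : ∀ s y, ∑ i, l i s y • e i s = (y.1, ρ.p (q s) y.2)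
  sum : ∀ s y, ∑ i, l i s y = y.1
  fib : ∀ s s', q s = q s' → ∃ τ : Equiv.Perm (Fin (n + 1)),
    ∀ i, e i s' = e (τ i) s ∧ l i s' = l (τ i) s

/-- The lens spaces. -/
def S_P2 : Prop :=
  ∀ p N m : ℕ, 1 ≤ p → (∃ (S : Type) (_ : TopologicalSpace S) (_ : CompactSpace S)
      (D : PC S (LS (tp (taut N N) p) m) p), Nonempty (Fr D (LS.σ (tp (taut N N) p) m) 1)) ∧
    (1 ≤ m → m ≤ N → Nonempty (LS (tp (taut N N) p) m))

/-- Frames of tensor powers and of their duals. -/
def S_P3 : Prop :=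
  ∀ {S B : Type} [TopologicalSpace S] [CompactSpace S] [TopologicalSpace B] [T2Space B] {p : ℕ}
    (D : PC S B p) (L : Bun B), Fr D L 1 → ∀ j, Nonempty (Fr D (tp L j) j) ∧ (tp L j).Rk 1 ∧
      (j ≤ p → (dual (tp L j)).Iso (tp L (p - j)))

/-- The Fourier transform of the frames. -/
def S_P4 : Prop :=
  ∀ {S B : Type} [TopologicalSpace S] [TopologicalSpace B] {n : ℕ} (D : PC S B (n + 1))
    (L : Fin n → Bun B), (∀ j : Fin n, Fr D (L j) (j + 1)) →
    ∃ ρ : Bun B, ρ.Split L ∧ Nonempty (Pm S ρ n)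

variable [Fact Core]

/-- The power `x ^ (n + 1)`. -/
def pw {X : Type} [TopologicalSpace X] (x : h X) : ℕ → h X
  | 0 => x
  | n + 1 => prod (ContinuousMap.id X) (ContinuousMap.id X) x (pw x n)

/-- The Euler class of a tensor power. -/
def S_P1 : Prop :=
  ∀ a, IsFGL a → ∀ {K : Type} [TopologicalSpace K] [CompactSpace K] [T2Space K] (L : Bun K),
    L.Rk 1 → ∀ j : ℕ, (tp L j).Rk 1 ∧
      ∃ w ∈ AA a (eu L), IsDeg 0 w ∧ eu (tp L j) = eu L * w ∧ eu L ∣ w - j

/-- The power operation. -/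
def S_P5 : Prop :=
  ∀ {S B X : Type} [TopologicalSpace S] [CompactSpace S] [TopologicalSpace B] [CompactSpace B]
    [T2Space B] [TopologicalSpace X] [T2Space X] (ρ : Bun B) (n : ℕ) (_ : Pm S ρ n) (c : Raw X),
    c.Good → (czero ρ c).Good ∧ ∃ P : h (B × X),
      eul ((ρ.pull ContinuousMap.fst).hom (Bun.triv (B × X) c.V)) P = cls (czero ρ c) ∧
      ∀ b, pull (slice X b) P = pw (cls c) n

/-- The class on the diagonal. -/
def S_P6 : Prop :=
  ∀ a, IsFGL a → ∀ {B X : Type} [TopologicalSpace B] [CompactSpace B] [T2Space B]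
    [TopologicalSpace X] [T2Space X] [LocallyCompactSpace X] (ρ : Bun B) {n : ℕ}
    (L : Fin n → Bun B) (v : h B) (c : Raw X) (k : ℕ) (d : ℤ), ρ.Split L → (∀ j, (L j).Rk 1) →
    (∀ j, eu (dual (L j)) ∈ AA a v) → c.Good → (czero ρ c).Good → (∀ z ∈ c.O, rk (c.p z) = k) →
    (k : ℤ) = d + c.V.dim →
    cls (czero ρ c) - cr ((∏ j, eu (dual (L j))) ^ k) (cls c) ∈ Hi a v X d

/-- The descent on the exponent. -/
def S_P7 : Prop :=
  ∀ a, IsFGL a → ∀ (X : Type) [TopologicalSpace X] [T2Space X] [LocallyCompactSpace X]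
    (R : AddSubgroup (h X)) (p : ℕ), (∀ i j, ∀ x ∈ R, act (toPt X) (a i j) x ∈ R) →
    (∀ d, ∀ x ∈ R, part d x ∈ R) → (∀ x : h X, p • x ∈ R) → ∀ d : ℤ,
    (∀ e > d, ∀ x, IsDeg e x → x ∈ R) → ∀ (N k : ℕ) (M : Bun (CP N N)) (w : h (CP N N)),
    w ∈ AA a (eu (taut N N)) → IsDeg 0 w → eu M = eu (taut N N) * w → eu (taut N N) ∣ w - p →
    2 * k + 1 ≤ N → ∀ (b : LS M 1) (z : h (LS M (2 * k + 1) × X)),
    act ContinuousMap.fst (eu (LS.σ M (2 * k + 1)) ^ k) z ∈ Hi a (eu (LS.σ M (2 * k + 1))) X d →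
    part d (pull (slice X (LS.incl M (Nat.le_add_left 1 (2 * k)) b)) z) ∈ R

/-- Quillen's descent at the prime `p`. -/
def S_Qp : Prop :=
  ∀ p : ℕ, p.Prime → ∀ a, IsFGL a →
    ∀ (X : Type) [TopologicalSpace X] [T2Space X] [LocallyCompactSpace X]
    (R : AddSubgroup (h X)), (∀ i j, ∀ x ∈ R, act (toPt X) (a i j) x ∈ R) →
    (∀ d, ∀ x ∈ R, part d x ∈ R) → (∀ x : h X, p • x ∈ R) → ∀ d ≤ 0,
    (∀ e > d, ∀ x, IsDeg e x → x ∈ R) → ∀ x, IsDeg d x →
    (if d = 0 then pw x (p - 1) - x else x) ∈ R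

end

end Pool.Agent.MP_826def_gt.PD
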